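import Mathlib
import Pool.Agent.Y687.K2.RankForm

/-!
# The rank form of the conjecture and scaling of the equation

`y² = x³ + a t⁴ x + b t⁶` is isomorphic to `y² = x³ + a x + b`; its incomplete Euler product lacks the
factors of the prime divisors of `t`.
-/

set_option autoImplicit false

open Finset

namespace Run7.h238.Scale

open Pool.Agent.Y687 (RankBSD finrank_zero_of_finite finite_pt_of_set)

/-- the number of the affine points modulo `p` -/
noncomputable def N (a b : ℤ) (p : ℕ) : ℕ := Nat.card {q : ZMod p × ZMod p //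
  q.2 ^ 2 = q.1 ^ 3 + (a : ZMod p) * q.1 + (b : ZMod p)}

/-- the inverse of the Euler factor -/
noncomputable def LL (a b : ℤ) (p : ℕ) (s : ℂ) : ℂ :=
  1 - ((p : ℂ) - (N a b p : ℂ)) * (p : ℂ) ^ (-s) + (p : ℂ) ^ (1 - 2 * s)

theorem N_le (a b : ℤ) {p : ℕ} (hp : p.Prime) : N a b p ≤ 2 * p := by
  classical
  have : Fact p.Prime := ⟨hp⟩
  set g : ZMod p → ZMod p := fun x => x ^ 3 + (a : ZMod p) * x + (b : ZMod p) with hg
  set r : ZMod p → ZMod p := fun x => if h : ∃ y, y ^ 2 = g x then h.choose else 0 with hr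
  have key : ∀ x y : ZMod p, y ^ 2 = g x → y = r x ∨ y = -r x := by
    intro x y h
    have h1 : ∃ y, y ^ 2 = g x := ⟨y, h⟩
    have h2 : r x = h1.choose := dif_pos h1
    have h3 : r x ^ 2 = g x := by rw [h2]; exact h1.choose_spec
    exact sq_eq_sq_iff_eq_or_eq_neg.1 (h.trans h3.symm)
  have h1 : Nat.card {q : ZMod p × ZMod p //
      q.2 ^ 2 = q.1 ^ 3 + (a : ZMod p) * q.1 + (b : ZMod p)} ≤ Nat.card (ZMod p × Bool) := by
    refine Nat.card_le_card_of_injective (fun q => (q.1.1, decide (q.1.2 = r q.1.1))) ?_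
    rintro ⟨⟨x, y⟩, hxy⟩ ⟨⟨x', y'⟩, hxy'⟩ h
    simp only [Prod.mk.injEq, decide_eq_decide] at h
    obtain ⟨rfl, h⟩ := h
    have k1 := key x y hxy
    have k2 := key x y' hxy'
    have : y = y' := by
      rcases k1 with k1 | k1
      · rw [k1, h.1 k1]
      · rcases k2 with k2 | k2
        · rw [k2, h.2 k2]
        · rw [k1, k2]
    exact Subtype.ext (Prod.ext rfl this)
  unfold N
  refine h1.trans (le_of_eq ?_)
  rw [Nat.card_prod, Nat.card_zmod]
  simp [mul_comm]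

theorem LL_ne (a b : ℤ) {p : ℕ} (hp : p.Prime) (h2 : p ≠ 2) {s : ℂ} (hs : (3 : ℝ) / 2 < s.re) :
    LL a b p s ≠ 0 := by
  have hp3 : 3 ≤ p := by
    have := hp.two_le
    omega
  have hp0 : (0 : ℝ) < p := by exact_mod_cast hp.pos
  have hp3' : (3 : ℝ) ≤ p := by exact_mod_cast hp3
  have hp1 : (1 : ℝ) < p := by linarith
  have hN := N_le a b hp
  have hc : ‖((p : ℂ) - (N a b p : ℂ))‖ ≤ p := by
    have e : ((p : ℂ) - (N a b p : ℂ)) = (((p : ℝ) - (N a b p : ℝ) : ℝ) : ℂ) := by push_cast; rfl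
    rw [e, Complex.norm_real, Real.norm_eq_abs, abs_le]
    have h1 : (N a b p : ℝ) ≤ 2 * p := by exact_mod_cast hN
    have h2 : (0 : ℝ) ≤ N a b p := Nat.cast_nonneg _
    constructor <;> linarith
  have e0 : (p : ℂ) = ((p : ℝ) : ℂ) := by push_cast; rfl
  have h1 : ‖(p : ℂ) ^ (-s)‖ ≤ (p : ℝ) ^ (-(3 / 2) : ℝ) := by
    rw [e0, Complex.norm_cpow_eq_rpow_re_of_pos hp0, Complex.neg_re]
    exact Real.rpow_le_rpow_of_exponent_le hp1.le (by linarith)
  have h3 : ‖(p : ℂ) ^ (1 - 2 * s)‖ ≤ (p : ℝ) ^ (-2 : ℝ) := by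
    rw [e0, Complex.norm_cpow_eq_rpow_re_of_pos hp0]
    refine Real.rpow_le_rpow_of_exponent_le hp1.le ?_
    simp only [Complex.sub_re, Complex.one_re, Complex.mul_re, Complex.re_ofNat, Complex.im_ofNat,
      zero_mul, sub_zero]
    linarith
  have h4 : ‖((p : ℂ) - (N a b p : ℂ)) * (p : ℂ) ^ (-s)‖ ≤ (p : ℝ) ^ (-(1 / 2) : ℝ) := by
    rw [norm_mul]
    refine (mul_le_mul hc h1 (norm_nonneg _) hp0.le).trans (le_of_eq ?_)
    nth_rewrite 1 [← Real.rpow_one (p : ℝ)]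
    rw [← Real.rpow_add hp0]
    norm_num
  have h5 : (p : ℝ) ^ (-(1 / 2) : ℝ) ≤ 3 / 5 := by
    rw [Real.rpow_neg hp0.le, ← Real.sqrt_eq_rpow, inv_le_comm₀ (Real.sqrt_pos.2 hp0) (by norm_num)]
    apply Real.le_sqrt_of_sq_le
    norm_num
    linarith
  have h6 : (p : ℝ) ^ (-2 : ℝ) ≤ 1 / 9 := by
    rw [Real.rpow_neg hp0.le, Real.rpow_two, inv_le_comm₀ (by positivity) (by norm_num)]
    norm_num
    nlinarith
  intro h0
  unfold LL at h0
  have h7 : (1 : ℂ) = ((p : ℂ) - (N a b p : ℂ)) * (p : ℂ) ^ (-s) - (p : ℂ) ^ (1 - 2 * s) := by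
    linear_combination h0
  have h8 : (1 : ℝ) ≤ 3 / 5 + 1 / 9 := by
    calc (1 : ℝ) = ‖(1 : ℂ)‖ := norm_one.symm
      _ = ‖((p : ℂ) - (N a b p : ℂ)) * (p : ℂ) ^ (-s) - (p : ℂ) ^ (1 - 2 * s)‖ := by rw [← h7]
      _ ≤ ‖((p : ℂ) - (N a b p : ℂ)) * (p : ℂ) ^ (-s)‖ + ‖(p : ℂ) ^ (1 - 2 * s)‖ := norm_sub_le _ _
      _ ≤ _ := add_le_add (h4.trans h5) (h3.trans h6)
  norm_num at h8

theorem LL_one (a b : ℤ) {p : ℕ} (hp : p.Prime) : LL a b p 1 ≠ 0 := by
  have hp0 : (p : ℂ) ≠ 0 := Nat.cast_ne_zero.2 hp.ne_zero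
  have e : LL a b p 1 = ((N a b p : ℂ) + 1) / p := by
    unfold LL
    have e1 : (1 : ℂ) - 2 * 1 = -1 := by norm_num
    rw [e1, Complex.cpow_neg_one]
    field_simp
    ring
  rw [e]
  refine div_ne_zero ?_ hp0
  have h1 : ((N a b p : ℂ) + 1) = ((N a b p + 1 : ℕ) : ℂ) := by push_cast; rfl
  rw [h1]
  exact Nat.cast_ne_zero.2 (Nat.succ_ne_zero _)

theorem LL_diff (a b : ℤ) {p : ℕ} (hp : p.Prime) : Differentiable ℂ (LL a b p) := by
  have hp0 : (p : ℂ) ≠ 0 := Nat.cast_ne_zero.2 hp.ne_zero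
  have h1 : Differentiable ℂ fun s : ℂ => (p : ℂ) ^ (-s) :=
    differentiable_id.neg.const_cpow (Or.inl hp0)
  have h2 : Differentiable ℂ fun s : ℂ => (p : ℂ) ^ (1 - 2 * s) :=
    ((differentiable_const _).sub (differentiable_id.const_mul 2)).const_cpow (Or.inl hp0)
  unfold LL
  exact ((differentiable_const _).sub (h1.const_mul _)).add h2

/-- the number of points of the scaled equation -/
theorem N_scale (a b t : ℤ) {p : ℕ} (hp : p.Prime) (ht : ¬ (p : ℤ) ∣ t) :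
    N (a * t ^ 4) (b * t ^ 6) p = N a b p := by
  have : Fact p.Prime := ⟨hp⟩
  have ht0 : (t : ZMod p) ≠ 0 := by
    intro h
    exact ht ((ZMod.intCast_zmod_eq_zero_iff_dvd _ _).1 h)
  unfold N
  refine Nat.card_congr ?_
  refine
    { toFun := fun q => ⟨(q.1.1 / (t : ZMod p) ^ 2, q.1.2 / (t : ZMod p) ^ 3), ?_⟩
      invFun := fun q => ⟨(q.1.1 * (t : ZMod p) ^ 2, q.1.2 * (t : ZMod p) ^ 3), ?_⟩
      left_inv := ?_
      right_inv := ?_ }
  · have h := q.2
    push_cast at h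
    simp only
    field_simp
    linear_combination h
  · have h := q.2
    push_cast
    linear_combination (t : ZMod p) ^ 6 * h
  · intro q
    apply Subtype.ext
    apply Prod.ext
    · simp only
      field_simp
    · simp only
      field_simp
  · intro q
    apply Subtype.ext
    apply Prod.ext
    · simp only
      field_simp
    · simp only
      field_simp

/-- the finite set of solutions of the scaled equation -/
theorem fin_scale {a b t : ℤ} (ht : t ≠ 0)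
    (h : {q : ℚ × ℚ | q.2 ^ 2 = q.1 ^ 3 + (a : ℚ) * q.1 + (b : ℚ)}.Finite) :
    {q : ℚ × ℚ | q.2 ^ 2 = q.1 ^ 3 + ((a * t ^ 4 : ℤ) : ℚ) * q.1 + ((b * t ^ 6 : ℤ) : ℚ)}.Finite := by
  have ht0 : (t : ℚ) ≠ 0 := by exact_mod_cast ht
  refine Set.Finite.subset (h.image fun q : ℚ × ℚ => (q.1 * (t : ℚ) ^ 2, q.2 * (t : ℚ) ^ 3)) ?_
  rintro ⟨x, y⟩ hq
  have hq' : y ^ 2 = x ^ 3 + ((a * t ^ 4 : ℤ) : ℚ) * x + ((b * t ^ 6 : ℤ) : ℚ) := hq
  push_cast at hq'
  refine ⟨(x / (t : ℚ) ^ 2, y / (t : ℚ) ^ 3), ?_, ?_⟩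
  · show (y / (t : ℚ) ^ 3) ^ 2 = (x / (t : ℚ) ^ 2) ^ 3 + (a : ℚ) * (x / (t : ℚ) ^ 2) + (b : ℚ)
    field_simp
    linear_combination hq'
  · apply Prod.ext
    · simp only
      field_simp
    · simp only
      field_simp

/-- **scaling** -/
theorem scale {a b t : ℤ} (ht : t ≠ 0) (h : RankBSD a b)
    (hfin : {q : ℚ × ℚ | q.2 ^ 2 = q.1 ^ 3 + (a : ℚ) * q.1 + (b : ℚ)}.Finite) :
    RankBSD (a * t ^ 4) (b * t ^ 6) := by
  classical
  obtain ⟨F, hF, hP, hO, -⟩ := h
  have hF1 : F 1 ≠ 0 := (hF.analyticAt 1).analyticOrderAt_eq_zero.1 hO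
  set P : Finset ℕ := t.natAbs.primeFactors.filter
    fun p => ¬ ((p : ℤ) ∣ 2 * (-4 * a ^ 3 - 27 * b ^ 2)) with hPd
  have hPp : ∀ p ∈ P, p.Prime := fun p hp => Nat.prime_of_mem_primeFactors (mem_filter.1 hp).1
  have hP2 : ∀ p ∈ P, p ≠ 2 := by
    intro p hp h2
    apply (mem_filter.1 hp).2
    rw [h2]
    exact ⟨-4 * a ^ 3 - 27 * b ^ 2, by push_cast; ring⟩
  have hdisc : 2 * (-4 * (a * t ^ 4) ^ 3 - 27 * (b * t ^ 6) ^ 2) =
      t ^ 12 * (2 * (-4 * a ^ 3 - 27 * b ^ 2)) := by ring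
  refine ⟨fun s => F s * ∏ p ∈ P, LL a b p s, ?_, ?_, ?_, ?_⟩
  · exact hF.mul (Differentiable.fun_finsetProd fun p hp => LL_diff a b (hPp p hp))
  · intro s hs
    have h1 : HasProd (fun p : ℕ => if p ∈ P then LL a b p s else 1) (∏ p ∈ P, LL a b p s) := by
      have h2 : HasProd (fun p : ℕ => if p ∈ P then LL a b p s else 1)
          (∏ p ∈ P, if p ∈ P then LL a b p s else 1) :=
        hasProd_prod_of_ne_finset_one (fun p hp => if_neg hp)
      rw [prod_congr rfl (fun p hp => if_pos hp)] at h2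
      exact h2
    have h2 := (hP s hs).mul h1
    refine (congrArg (fun g => HasProd g (F s * ∏ p ∈ P, LL a b p s)) (funext fun p => ?_)).mp h2
    by_cases hp : p.Prime
    · have hpZ : Prime (p : ℤ) := Nat.prime_iff_prime_int.1 hp
      by_cases hd : (p : ℤ) ∣ 2 * (-4 * a ^ 3 - 27 * b ^ 2)
      · have hmem : p ∉ P := fun h3 => (mem_filter.1 h3).2 hd
        rw [if_neg (fun h => h.2 hd), if_neg hmem, if_neg, mul_one]
        rintro ⟨-, h3⟩
        apply h3
        rw [hdisc]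
        exact hd.mul_left _
      · by_cases hpt : (p : ℤ) ∣ t
        · have hmem : p ∈ P := by
            rw [hPd, mem_filter, Nat.mem_primeFactors]
            exact ⟨⟨hp, Int.natCast_dvd.1 hpt, Int.natAbs_ne_zero.2 ht⟩, hd⟩
          rw [if_pos ⟨hp, hd⟩, if_pos hmem, if_neg]
          · have h4 := LL_ne a b hp (hP2 p hmem) hs
            unfold LL N at h4 ⊢
            exact inv_mul_cancel₀ h4
          · rintro ⟨-, h3⟩
            apply h3
            rw [hdisc]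
            exact (dvd_pow hpt (by norm_num)).mul_right _
        · have hmem : p ∉ P := by
            intro h3
            apply hpt
            exact Int.natCast_dvd.2 (Nat.dvd_of_mem_primeFactors (mem_filter.1 h3).1)
          rw [if_pos ⟨hp, hd⟩, if_neg hmem, mul_one, if_pos]
          · have h5 := N_scale a b t hp hpt
            unfold N at h5
            rw [h5]
          · refine ⟨hp, fun h3 => ?_⟩
            rw [hdisc] at h3
            rcases hpZ.dvd_or_dvd h3 with h4 | h4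
            · exact hpt (hpZ.dvd_of_dvd_pow h4)
            · exact hd h4
    · rw [if_neg (fun h => hp h.1), if_neg (fun h => hp (hPp p h)), if_neg (fun h => hp h.1), mul_one]
  · refine AnalyticAt.analyticOrderAt_eq_zero
      ((hF.mul (Differentiable.fun_finsetProd fun p hp => LL_diff a b (hPp p hp))).analyticAt 1) |>.2 ?_
    exact mul_ne_zero hF1 (prod_ne_zero_iff.2 fun p hp => LL_one a b (hPp p hp))
  · exact finrank_zero_of_finite (finite_pt_of_set (fin_scale ht hfin))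

end Run7.h238.Scale
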