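import Mathlib
import Pool.Agent.Y703.CX.Stm

/-!
# A weighted form of the sieve bound

For a family of sets of primes which is closed under subsets, the sets counted with the weight
`2 ^ |S|`.
-/

set_option autoImplicit false

open scoped Classical

namespace Run7.h238.WSie

open Finset
open Pool.Agent.Y703.CX (S_SIE)

/-- the number of subsets with small product -/
theorem half {S : Finset ℕ} {Y : ℕ} (h : ∏ p ∈ S, p ≤ Y) :
    2 ^ S.card ≤ 2 * (S.powerset.filter fun A => (∏ p ∈ A, p) ^ 2 ≤ Y).card := by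
  have h1 : S.powerset ⊆ (S.powerset.filter fun A => (∏ p ∈ A, p) ^ 2 ≤ Y) ∪
      ((S.powerset.filter fun A => (∏ p ∈ A, p) ^ 2 ≤ Y).image fun A => S \ A) := by
    intro A hA
    have hA' := mem_powerset.1 hA
    have hp : (∏ p ∈ S \ A, p) * ∏ p ∈ A, p = ∏ p ∈ S, p := prod_sdiff hA'
    rw [mem_union, mem_filter]
    by_cases h2 : (∏ p ∈ A, p) ^ 2 ≤ Y
    · exact Or.inl ⟨hA, h2⟩
    · right
      rw [mem_image]
      refine ⟨S \ A, mem_filter.2 ⟨mem_powerset.2 sdiff_subset, ?_⟩, ?_⟩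
      · by_contra h3
        push Not at h2 h3
        have h4 : Y * Y < (∏ p ∈ A, p) ^ 2 * (∏ p ∈ S \ A, p) ^ 2 :=
          Nat.mul_lt_mul'' h2 h3
        have h5 : (∏ p ∈ A, p) ^ 2 * (∏ p ∈ S \ A, p) ^ 2 = (∏ p ∈ S, p) ^ 2 := by
          rw [← hp]
          ring
        rw [h5] at h4
        have h6 : (∏ p ∈ S, p) ^ 2 ≤ Y ^ 2 := Nat.pow_le_pow_left h 2
        rw [pow_two Y] at h6
        omega
      · exact Finset.sdiff_sdiff_eq_self hA'
  have h2 := card_le_card h1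
  rw [card_powerset] at h2
  have h3 := card_union_le (S.powerset.filter fun A => (∏ p ∈ A, p) ^ 2 ≤ Y)
    ((S.powerset.filter fun A => (∏ p ∈ A, p) ^ 2 ≤ Y).image fun A => S \ A)
  have h4 : ((S.powerset.filter fun A => (∏ p ∈ A, p) ^ 2 ≤ Y).image fun A => S \ A).card ≤
    (S.powerset.filter fun A => (∏ p ∈ A, p) ^ 2 ≤ Y).card := card_image_le
  omega

/-- the logarithms -/
theorem log_le {Y N : ℕ} (hN : 0 < N) (h : N ^ 2 ≤ Y) :
    1 ≤ Y / N ∧ Real.log Y ≤ 3 * Real.log ((Y / N : ℕ) : ℝ) := by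
  have h1 : N ≤ Y / N := by
    rw [Nat.le_div_iff_mul_le hN]
    nlinarith
  have h2 : 1 ≤ Y / N := hN.trans_le h1
  refine ⟨h2, ?_⟩
  have h3 : Y < N * (Y / N + 1) := Nat.lt_mul_div_succ Y hN
  have h4 : Y < (Y / N) * (Y / N + 1) := h3.trans_le (Nat.mul_le_mul_right _ h1)
  set M := Y / N with hM
  have hM0 : (0 : ℝ) < M := by exact_mod_cast h2
  have hY : 0 < Y := lt_of_lt_of_le (by positivity) h
  have h5 : Y ≤ M ^ 3 := by
    rcases Nat.lt_or_ge M 2 with h6 | h6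
    · have h7 : M = 1 := by omega
      rw [h7] at h4 ⊢
      omega
    · nlinarith
  have h6 : (Y : ℝ) ≤ (M : ℝ) ^ 3 := by exact_mod_cast h5
  have h7 := Real.log_le_log (by exact_mod_cast hY) h6
  rw [Real.log_pow] at h7
  exact_mod_cast h7

/-- **the weighted bound** -/
theorem wsie (hS : S_SIE) : ∃ C : ℝ, 1 ≤ C ∧ ∀ (Y : ℕ) (L : Finset (Finset ℕ)), 1 ≤ Y →
    (∀ S ∈ L, (∀ p ∈ S, p.Prime) ∧ ∏ p ∈ S, p ≤ Y) → (∀ S ∈ L, ∀ T, T ⊆ S → T ∈ L) →
    (∑ S ∈ L, (2 : ℝ) ^ S.card) * Real.log Y ≤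
      C * Y * (∑ S ∈ L, (1 : ℝ) / ((∏ p ∈ S, p : ℕ) : ℝ)) ^ 2 := by
  obtain ⟨C, hC, h⟩ := hS
  refine ⟨6 * C, by linarith, fun Y L hY hL hsub => ?_⟩
  set σ : ℝ := ∑ S ∈ L, (1 : ℝ) / ((∏ p ∈ S, p : ℕ) : ℝ) with hσ
  have hσ0 : 0 ≤ σ := sum_nonneg fun _ _ => by positivity
  have hlog : 0 ≤ Real.log Y := Real.log_natCast_nonneg Y
  have hY0 : (0 : ℝ) ≤ Y := Nat.cast_nonneg _
  -- the pairs
  have h1 : ∑ S ∈ L, (2 : ℝ) ^ S.card ≤
      2 * ∑ A ∈ L.filter (fun A => (∏ p ∈ A, p) ^ 2 ≤ Y), ((L.filter fun S => A ⊆ S).card : ℝ) := by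
    have h2 : ∑ S ∈ L, 2 ^ S.card ≤
        2 * ∑ S ∈ L, (S.powerset.filter fun A => (∏ p ∈ A, p) ^ 2 ≤ Y).card := by
      rw [mul_sum]
      exact sum_le_sum fun S hS => half (hL S hS).2
    have h3 : ∑ S ∈ L, (S.powerset.filter fun A => (∏ p ∈ A, p) ^ 2 ≤ Y).card =
        ∑ A ∈ L.filter (fun A => (∏ p ∈ A, p) ^ 2 ≤ Y), (L.filter fun S => A ⊆ S).card := by
      have e1 : ∀ S ∈ L, (S.powerset.filter fun A => (∏ p ∈ A, p) ^ 2 ≤ Y).card =
          ∑ A ∈ L.filter (fun A => (∏ p ∈ A, p) ^ 2 ≤ Y), if A ⊆ S then 1 else 0 := by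
        intro S hS
        rw [← card_filter]
        congr 1
        ext A
        rw [mem_filter, mem_filter, mem_filter, mem_powerset]
        constructor
        · rintro ⟨k1, k2⟩
          exact ⟨⟨hsub S hS A k1, k2⟩, k1⟩
        · rintro ⟨⟨-, k2⟩, k3⟩
          exact ⟨k3, k2⟩
      rw [sum_congr rfl e1, sum_comm]
      refine sum_congr rfl fun A _ => ?_
      rw [← card_filter]
    rw [h3] at h2
    exact_mod_cast h2
  -- one of them
  have h2 : ∀ A ∈ L.filter (fun A => (∏ p ∈ A, p) ^ 2 ≤ Y),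
      ((L.filter fun S => A ⊆ S).card : ℝ) * Real.log Y ≤
        3 * C * Y * σ * ((1 : ℝ) / ((∏ p ∈ A, p : ℕ) : ℝ)) := by
    intro A hA
    rw [mem_filter] at hA
    obtain ⟨hAL, hA2⟩ := hA
    have hAp : ∀ p ∈ A, p.Prime := (hL A hAL).1
    have hN : 0 < ∏ p ∈ A, p := prod_pos fun p hp => (hAp p hp).pos
    set N := ∏ p ∈ A, p with hNd
    obtain ⟨h3, h4⟩ := log_le hN hA2
    set L' : Finset (Finset ℕ) := L.filter fun B => Disjoint A B ∧ A ∪ B ∈ L with hL'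
    have h5 : (L.filter fun S => A ⊆ S).card ≤ L'.card := by
      refine card_le_card_of_injOn (fun S => S \ A) ?_ ?_
      · intro S hS
        rw [mem_coe, mem_filter] at hS
        rw [mem_coe, hL', mem_filter]
        refine ⟨hsub S hS.1 _ sdiff_subset, disjoint_sdiff, ?_⟩
        rw [union_sdiff_of_subset hS.2]
        exact hS.1
      · intro S hS T hT hST
        rw [mem_coe, mem_filter] at hS hT
        have hST' : S \ A = T \ A := hST
        rw [← sdiff_union_of_subset hS.2, hST', sdiff_union_of_subset hT.2]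
    have h6 := h (Y / N) L' h3 (by
      intro B hB
      rw [hL', mem_filter] at hB
      refine ⟨(hL B hB.1).1, ?_⟩
      rw [Nat.le_div_iff_mul_le hN, mul_comm]
      have h7 := (hL _ hB.2.2).2
      rw [prod_union hB.2.1] at h7
      exact h7) (by
      intro B hB T hT
      rw [hL', mem_filter] at hB ⊢
      exact ⟨hsub B hB.1 T hT, disjoint_of_subset_right hT hB.2.1,
        hsub _ hB.2.2 _ (union_subset_union_right hT)⟩)
    have h7 : ∑ S ∈ L', (1 : ℝ) / ((∏ p ∈ S, p : ℕ) : ℝ) ≤ σ :=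
      sum_le_sum_of_subset_of_nonneg (filter_subset _ _) fun _ _ _ => by positivity
    have h8 : ((Y / N : ℕ) : ℝ) ≤ Y / N := Nat.cast_div_le
    have hNr : (0 : ℝ) < N := by exact_mod_cast hN
    calc ((L.filter fun S => A ⊆ S).card : ℝ) * Real.log Y ≤
          (L'.card : ℝ) * (3 * Real.log ((Y / N : ℕ) : ℝ)) := by
          have h9 : ((L.filter fun S => A ⊆ S).card : ℝ) ≤ L'.card := by exact_mod_cast h5
          exact mul_le_mul h9 h4 hlog (Nat.cast_nonneg _)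
      _ = 3 * ((L'.card : ℝ) * Real.log ((Y / N : ℕ) : ℝ)) := by ring
      _ ≤ 3 * (C * ((Y / N : ℕ) : ℝ) * ∑ S ∈ L', (1 : ℝ) / ((∏ p ∈ S, p : ℕ) : ℝ)) := by
          linarith
      _ ≤ 3 * (C * (Y / N) * σ) := by
          have h9 : 0 ≤ ∑ S ∈ L', (1 : ℝ) / ((∏ p ∈ S, p : ℕ) : ℝ) :=
            sum_nonneg fun _ _ => by positivity
          have hC0 : 0 ≤ C := by linarith
          gcongr
      _ = _ := by ring
  have hL0 : ∑ A ∈ L.filter (fun A => (∏ p ∈ A, p) ^ 2 ≤ Y), (1 : ℝ) / ((∏ p ∈ A, p : ℕ) : ℝ) ≤ σ :=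
    sum_le_sum_of_subset_of_nonneg (filter_subset _ _) fun _ _ _ => by positivity
  calc (∑ S ∈ L, (2 : ℝ) ^ S.card) * Real.log Y ≤
        (2 * ∑ A ∈ L.filter (fun A => (∏ p ∈ A, p) ^ 2 ≤ Y),
          ((L.filter fun S => A ⊆ S).card : ℝ)) * Real.log Y := mul_le_mul_of_nonneg_right h1 hlog
    _ = 2 * ∑ A ∈ L.filter (fun A => (∏ p ∈ A, p) ^ 2 ≤ Y),
          ((L.filter fun S => A ⊆ S).card : ℝ) * Real.log Y := by
        rw [mul_assoc, sum_mul]
    _ ≤ 2 * ∑ A ∈ L.filter (fun A => (∏ p ∈ A, p) ^ 2 ≤ Y),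
          3 * C * Y * σ * ((1 : ℝ) / ((∏ p ∈ A, p : ℕ) : ℝ)) := by
        have := sum_le_sum h2
        linarith
    _ = 2 * (3 * C * Y * σ * ∑ A ∈ L.filter (fun A => (∏ p ∈ A, p) ^ 2 ≤ Y),
          (1 : ℝ) / ((∏ p ∈ A, p : ℕ) : ℝ)) := by rw [← mul_sum]
    _ ≤ 2 * (3 * C * Y * σ * σ) := by
        have hC0 : 0 ≤ C := by linarith
        gcongr
    _ = _ := by ring

end Run7.h238.WSie
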