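import Pool.Agent.R413.SQ.FEW
import Pool.Agent.R413.SQ.CNT
import Pool.Agent.R413.SQ.KEY
import Pool.Agent.Run7.h238.WSie

/-!
# Weighted sums over the exceptional sets, first part

The weight of a set `S` is `2 ^ |S|`. Total weight, sets with few large split primes or no large
inert prime, sets with many primes, sets near the boundary, sets with two primes in a block.
-/

set_option autoImplicit false

open scoped Classical

namespace Run7.h238.WFew

open Finset hiding mk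
open Filter hiding mk
open Pool.Agent.Y703.CX (sm la jj XX eL zz kk S_SIE)
open Pool.Agent.R413.SQ
open Pool.Agent.Y703.CQ (nr S_MER)
open Pool.Agent.Y495.CX.Few (PN euler prod_pos' le_of_mem_prod mert eL_tendsto log_small zz_ge
  loglog_zz rpow_eq)
open Pool.Agent.R413.SQ.FEW (mer_S mer_I LL mem_LL LL_sub mem_LL_of LL_sum pr SS_mem moment)
open Run7.h238.WSie

/-- the weight -/
noncomputable def wt (F : Finset (Finset ℕ)) : ℝ := ∑ S ∈ F, (2 : ℝ) ^ S.card

theorem wt_nonneg (F : Finset (Finset ℕ)) : 0 ≤ wt F := sum_nonneg fun _ _ => by positivity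

theorem wt_mono {F G : Finset (Finset ℕ)} (h : F ⊆ G) : wt F ≤ wt G :=
  sum_le_sum_of_subset_of_nonneg h fun _ _ _ => by positivity

theorem wt_union (F G : Finset (Finset ℕ)) : wt (F ∪ G) ≤ wt F + wt G := by
  unfold wt
  rw [← sum_union_inter]
  have : 0 ≤ ∑ S ∈ F ∩ G, (2 : ℝ) ^ S.card := sum_nonneg fun _ _ => by positivity
  linarith

theorem wt_card {F : Finset (Finset ℕ)} {k : ℕ} (h : ∀ S ∈ F, S.card ≤ k) :
    wt F ≤ (F.card : ℝ) * 2 ^ k := by
  unfold wt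
  rw [← nsmul_eq_mul, ← sum_const]
  exact sum_le_sum fun S hS => pow_le_pow_right₀ (by norm_num) (h S hS)

/-- the whole class is in the family with no condition -/
theorem SS_sub_LL (I K : Finset ℕ) (X : ℕ) : SS I K X ⊆ LL I X fun _ => True :=
  fun _ hS => mem_LL_of hS trivial

/-- **the total weight** -/
theorem total (hs : S_SIE) (hm : S_MER) (I K : Finset ℕ) : ∃ C : ℝ, 1 ≤ C ∧ ∀ X : ℕ,
    wt (SS I K X) ≤ C * X := by
  obtain ⟨C₁, hC₁0, hC₁⟩ := mer_S hm
  obtain ⟨C₂, hC₂0, hC₂⟩ := mer_I hm I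
  obtain ⟨C', hC'1, hC'⟩ := wsie hs
  have hex : 1 ≤ Real.exp (2 * (C₁ + C₂)) := Real.one_le_exp (by positivity)
  refine ⟨8 * (C' * Real.exp (2 * (C₁ + C₂))), by nlinarith, fun X => ?_⟩
  rcases Nat.lt_or_ge X 3 with hX | hX
  · -- small numbers
    have h1 : ∀ S ∈ SS I K X, S = ∅ := by
      intro S hS
      obtain ⟨h2, h3⟩ := SS_mem hS
      by_contra hne
      obtain ⟨p, hp⟩ := nonempty_iff_ne_empty.2 hne
      have h4 := le_of_mem_prod (fun p hp => pr (h2 p hp)) h3 hp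
      obtain ⟨h5, h6⟩ := pr1 (h2 p hp)
      have h7 := h5.two_le
      omega
    rcases Nat.eq_zero_or_pos X with h0 | h0
    · have h2 : SS I K X = ∅ := by
        rw [eq_empty_iff_forall_notMem]
        intro S hS
        have h3 := (SS_mem hS).2
        have h4 := prod_pos' fun p hp => pr ((SS_mem hS).1 p hp)
        omega
      rw [h2]
      unfold wt
      rw [sum_empty]
      positivity
    · have h2 : SS I K X ⊆ {∅} := fun S hS => mem_singleton.2 (h1 S hS)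
      refine (wt_mono h2).trans ?_
      unfold wt
      rw [sum_singleton, card_empty, pow_zero]
      have h3 : (1 : ℝ) ≤ X := by exact_mod_cast h0
      have h4 : 1 ≤ C' * Real.exp (2 * (C₁ + C₂)) := one_le_mul_of_one_le_of_one_le hC'1 hex
      have h5 : 1 ≤ 8 * (C' * Real.exp (2 * (C₁ + C₂))) := by linarith
      exact one_le_mul_of_one_le_of_one_le h5 h3
  · have h7 := hC' X (LL I X fun _ => True) (by omega)
      (fun S hS => ⟨fun p hp => pr ((mem_LL.1 hS).2.1 p hp), (mem_LL.1 hS).2.2.1⟩)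
      (fun S hS T hT => LL_sub (Q := fun _ => True) (fun _ _ _ _ => trivial) hS hT)
    have h8 := LL_sum I X 0 (fun _ => True) (fun _ => 1) 1 1 1 (fun _ => zero_le_one) zero_le_one
      zero_le_one zero_le_one (fun S _ => by simp) (fun _ _ => le_rfl) (fun _ _ _ => le_rfl)
      (fun _ _ _ => le_rfl)
    have e0 : PN 0 = ∅ := by
      unfold PN
      simp
    rw [e0, sum_empty, zero_add, one_mul, one_mul, one_mul] at h8
    have h6 := hC₁ X hX
    have h6' := hC₂ X hX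
    have hX' : (3 : ℝ) ≤ X := by exact_mod_cast hX
    have hl : 1 < Real.log X := by
      rw [Real.lt_log_iff_exp_lt (by linarith)]
      have := Real.exp_one_lt_d9
      linarith
    have h9 : ∑ S ∈ LL I X (fun _ => True), (1 : ℝ) / ((∏ p ∈ S, p : ℕ) : ℝ) ≤
        Real.exp (1 / 2 * Real.log (Real.log X) + (C₁ + C₂)) := by
      refine h8.trans (Real.exp_le_exp.2 ?_)
      linarith
    have h10 : (∑ S ∈ LL I X (fun _ => True), (1 : ℝ) / ((∏ p ∈ S, p : ℕ) : ℝ)) ^ 2 ≤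
        Real.exp (2 * (C₁ + C₂)) * Real.log X := by
      have h11 : 0 ≤ ∑ S ∈ LL I X (fun _ => True), (1 : ℝ) / ((∏ p ∈ S, p : ℕ) : ℝ) :=
        sum_nonneg fun _ _ => by positivity
      refine (pow_le_pow_left₀ h11 h9 2).trans (le_of_eq ?_)
      rw [← Real.exp_nat_mul]
      push_cast
      have e : 2 * (1 / 2 * Real.log (Real.log X) + (C₁ + C₂)) =
          2 * (C₁ + C₂) + Real.log (Real.log X) := by ring
      rw [e, Real.exp_add, Real.exp_log (by linarith)]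
    have h11 : wt (SS I K X) * Real.log X ≤
        (8 * (C' * Real.exp (2 * (C₁ + C₂))) * X) * Real.log X := by
      calc wt (SS I K X) * Real.log X ≤ wt (LL I X fun _ => True) * Real.log X :=
            mul_le_mul_of_nonneg_right (wt_mono (SS_sub_LL I K X)) (by linarith)
        _ ≤ C' * X * (∑ S ∈ LL I X (fun _ => True), (1 : ℝ) / ((∏ p ∈ S, p : ℕ) : ℝ)) ^ 2 := h7
        _ ≤ C' * X * (Real.exp (2 * (C₁ + C₂)) * Real.log X) :=
            mul_le_mul_of_nonneg_left h10 (by positivity)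
        _ = 1 * (C' * Real.exp (2 * (C₁ + C₂)) * X * Real.log X) := by ring
        _ ≤ 8 * (C' * Real.exp (2 * (C₁ + C₂)) * X * Real.log X) := by
            apply mul_le_mul_of_nonneg_right (by norm_num)
            have : 0 < Real.log X := by linarith
            positivity
        _ = _ := by ring
    exact le_of_mul_le_mul_right h11 (by linarith)

/-- the weight of a family closed under subsets -/
theorem part2w (hs : S_SIE) (hm : S_MER) {I : Finset ℕ} (s t e : ℝ) (hs0 : 0 ≤ s)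
    (ht0 : 0 ≤ t) (Q : ℕ → Finset ℕ → Prop) (hQ : ∀ X S, Q X S → ∀ T, T ⊆ S → Q X T)
    (w : ℕ → ℕ → ℝ) (hw : ∀ X p, 0 ≤ w X p) (hz : ∀ X p, p ≤ zz X → w X p ≤ 1)
    (hS : ∀ X p, Sp p → zz X < p → w X p ≤ s) (hN : ∀ X p, In I p → zz X < p → w X p ≤ t)
    (h1w : ∀ X, 2 ≤ eL X → ∀ S ∈ LL I X (Q X), 1 ≤ Real.exp (e * eL X) * ∏ p ∈ S, w X p)
    {r : ℝ} (hr : -1 + 2 * (e + s / 4 + t / 4) < r) :
    ∃ C : ℝ, 0 ≤ C ∧ ∀ᶠ X : ℕ in atTop,
    wt (LL I X (Q X)) ≤ C * X * Real.exp (r * eL X) := by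
  obtain ⟨C, hC0, hC⟩ := mert
  obtain ⟨C₁, hC₁0, hC₁⟩ := mer_S hm
  obtain ⟨C₂, hC₂0, hC₂⟩ := mer_I hm I
  obtain ⟨C', hC'1, hC'⟩ := wsie hs
  refine ⟨C' * Real.exp (2 * (C + s * C₁ + t * C₂)), by positivity, ?_⟩
  have hε : 0 < (r - (-1 + 2 * (e + s / 4 + t / 4))) / 2 := by linarith
  filter_upwards [eL_tendsto.eventually (log_small 3 _ hε),
    eL_tendsto.eventually (eventually_ge_atTop 2), eventually_ge_atTop 3] with X h1 h2 h3
  set l := eL X with hl
  have h4 := hC (zz X) (zz_ge h2)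
  have h5 := loglog_zz h2
  have h6 := hC₁ X h3
  have h6' := hC₂ X h3
  rw [← hl] at h5
  change _ ≤ 1 / 4 * l + C₁ at h6
  change _ ≤ 1 / 4 * l + C₂ at h6'
  have h7 := hC' X (LL I X (Q X)) (by omega)
    (fun S hS => ⟨fun p hp => pr ((mem_LL.1 hS).2.1 p hp), (mem_LL.1 hS).2.2.1⟩)
    (fun S hS T hT => LL_sub (hQ X) hS hT)
  have h8 := LL_sum I X (zz X) (Q X) (w X) (Real.exp (e * l)) s t (hw X) (Real.exp_pos _).le
    hs0 ht0 (h1w X h2) (hz X) (hS X) (hN X)
  have hlX : Real.log X = Real.exp l := by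
    have := rpow_eq (X := X) h2 1
    rwa [Real.rpow_one, one_mul] at this
  rw [hlX] at h7
  have h9 : s * ∑ p ∈ (PN X).filter Sp, (1 : ℝ) / p ≤ s * (1 / 4 * l + C₁) :=
    mul_le_mul_of_nonneg_left h6 hs0
  have h10 : t * ∑ p ∈ (PN X).filter (In I), (1 : ℝ) / p ≤ t * (1 / 4 * l + C₂) :=
    mul_le_mul_of_nonneg_left h6' ht0
  have h12 : Real.exp (e * l) * Real.exp (∑ p ∈ PN (zz X), (1 : ℝ) / p +
      s * ∑ p ∈ (PN X).filter Sp, (1 : ℝ) / p +
        t * ∑ p ∈ (PN X).filter (In I), (1 : ℝ) / p) ≤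
      Real.exp ((C + s * C₁ + t * C₂) + (r + 1) / 2 * l) := by
    rw [← Real.exp_add]
    apply Real.exp_le_exp.2
    have e1 : ∑ p ∈ PN (zz X), (1 : ℝ) / p ≤ 3 * Real.log l + C := by linarith
    calc e * l + (∑ p ∈ PN (zz X), (1 : ℝ) / p + s * ∑ p ∈ (PN X).filter Sp, (1 : ℝ) / p +
        t * ∑ p ∈ (PN X).filter (In I), (1 : ℝ) / p)
        ≤ e * l + ((r - (-1 + 2 * (e + s / 4 + t / 4))) / 2 * l + C +
          s * (1 / 4 * l + C₁) + t * (1 / 4 * l + C₂)) := by linarith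
      _ = C + s * C₁ + t * C₂ + (r + 1) / 2 * l := by ring
  have h0 : 0 ≤ ∑ S ∈ LL I X (Q X), (1 : ℝ) / ((∏ p ∈ S, p : ℕ) : ℝ) :=
    sum_nonneg fun _ _ => by positivity
  have h12' : (∑ S ∈ LL I X (Q X), (1 : ℝ) / ((∏ p ∈ S, p : ℕ) : ℝ)) ^ 2 ≤
      Real.exp (2 * (C + s * C₁ + t * C₂)) * Real.exp ((r + 1) * l) := by
    refine (pow_le_pow_left₀ h0 (h8.trans h12) 2).trans (le_of_eq ?_)
    rw [← Real.exp_nat_mul, ← Real.exp_add]
    congr 1
    push_cast
    ring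
  have h13 : wt (LL I X (Q X)) * Real.exp l ≤
      C' * X * (Real.exp (2 * (C + s * C₁ + t * C₂)) * Real.exp ((r + 1) * l)) := by
    refine h7.trans ?_
    exact mul_le_mul_of_nonneg_left h12' (by positivity)
  have h14 : (C' * Real.exp (2 * (C + s * C₁ + t * C₂)) * X * Real.exp (r * l)) * Real.exp l =
      C' * X * (Real.exp (2 * (C + s * C₁ + t * C₂)) * Real.exp ((r + 1) * l)) := by
    have : Real.exp ((r + 1) * l) = Real.exp (r * l) * Real.exp l := by
      rw [← Real.exp_add]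
      congr 1
      ring
    rw [this]
    ring
  rw [← h14] at h13
  exact le_of_mul_le_mul_right h13 (Real.exp_pos _)

/-- sets whose large primes are split -/
theorem part3w (hs : S_SIE) (hm : S_MER) {I : Finset ℕ} {r : ℝ}
    (hr : -1 / 2 < r) : ∃ C : ℝ, 0 ≤ C ∧ ∀ᶠ X : ℕ in atTop,
    wt (LL I X fun S => ∀ p ∈ la (zz X) S, mk p = 1) ≤ C * X * Real.exp (r * eL X) := by
  refine part2w hs hm 1 0 0 zero_le_one le_rfl
    (fun X S => ∀ p ∈ la (zz X) S, mk p = 1) ?_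
    (fun X p => if ¬ p ≤ zz X ∧ mk p ≠ 1 then 0 else 1) ?_ ?_ ?_ ?_ ?_ ?_
  · intro X S h T hT p hp
    refine h p ?_
    unfold la at hp ⊢
    rw [mem_filter] at hp ⊢
    exact ⟨hT hp.1, hp.2⟩
  · intro X p
    split_ifs <;> norm_num
  · intro X p _
    split_ifs <;> norm_num
  · intro X p _ _
    split_ifs <;> norm_num
  · intro X p h h'
    have h8 : mk p ≠ 1 := h.2.1
    rw [if_pos ⟨not_le.2 h', h8⟩]
  · intro X _ S hS
    rw [mem_LL] at hS
    rw [zero_mul, Real.exp_zero, one_mul]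
    refine le_of_eq (Eq.symm (prod_eq_one fun p hp => ?_))
    rw [if_neg]
    rintro ⟨h1, h2⟩
    exact h2 (hS.2.2.2 p (mem_filter.2 ⟨hp, h1⟩))
  · linarith

/-- sets with few large split primes -/
theorem part4w (hs : S_SIE) (hm : S_MER) {I : Finset ℕ} {r : ℝ}
    (hr : -(1 / 5) ≤ r) : ∃ C : ℝ, 0 ≤ C ∧ ∀ᶠ X : ℕ in atTop,
    wt (LL I X fun S => ((la (zz X) S).filter fun p => mk p = 1).card ≤ ⌊eL X / 32⌋₊) ≤
      C * X * Real.exp (r * eL X) := by
  have hl4 : Real.log 4 / 32 + 1 / 32 < 3 / 40 := by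
    have h1 : (4 : ℝ) = 2 ^ 2 := by norm_num
    rw [h1, Real.log_pow]
    have := Real.log_two_lt_d9
    push_cast
    linarith
  refine part2w hs hm (1 / 4) 1 (Real.log 4 / 32) (by norm_num) zero_le_one
    (fun X S => ((la (zz X) S).filter fun p => mk p = 1).card ≤ ⌊eL X / 32⌋₊) ?_
    (fun X p => if ¬ p ≤ zz X ∧ mk p = 1 then 1 / 4 else 1) ?_ ?_ ?_ ?_ ?_ ?_
  · intro X S h T hT
    refine (card_le_card (filter_subset_filter _ ?_)).trans h
    unfold la
    exact filter_subset_filter _ hT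
  · intro X p
    split_ifs <;> norm_num
  · intro X p _
    split_ifs <;> norm_num
  · intro X p h h'
    rw [if_pos ⟨not_le.2 h', h.2.1⟩]
  · intro X p _ _
    split_ifs <;> norm_num
  · intro X hX S hS
    rw [mem_LL] at hS
    rw [← prod_filter, prod_const]
    have h1 : (S.filter fun p => ¬ p ≤ zz X ∧ mk p = 1).card ≤ ⌊eL X / 32⌋₊ := by
      refine (card_le_card ?_).trans hS.2.2.2
      intro p hp
      rw [mem_filter] at hp
      unfold la
      rw [mem_filter, mem_filter]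
      exact ⟨⟨hp.1, hp.2.1⟩, hp.2.2⟩
    have h2 : (1 / 4 : ℝ) ^ ⌊eL X / 32⌋₊ ≤
        (1 / 4 : ℝ) ^ (S.filter fun p => ¬ p ≤ zz X ∧ mk p = 1).card :=
      pow_le_pow_of_le_one (by norm_num) (by norm_num) h1
    have h3 : Real.exp (-(Real.log 4 / 32 * eL X)) ≤ (1 / 4 : ℝ) ^ ⌊eL X / 32⌋₊ := by
      have e1 : (1 / 4 : ℝ) = Real.exp (-Real.log 4) := by
        rw [Real.exp_neg, Real.exp_log (by norm_num)]
        norm_num
      rw [e1, ← Real.exp_nat_mul]
      apply Real.exp_le_exp.2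
      have e2 : ((⌊eL X / 32⌋₊ : ℕ) : ℝ) ≤ eL X / 32 := Nat.floor_le (by linarith)
      have e4 : 0 ≤ Real.log 4 := Real.log_nonneg (by norm_num)
      have e5 := mul_le_mul_of_nonneg_right e2 e4
      linarith
    calc (1 : ℝ) = Real.exp (Real.log 4 / 32 * eL X) *
          Real.exp (-(Real.log 4 / 32 * eL X)) := by
          rw [← Real.exp_add, add_neg_cancel, Real.exp_zero]
      _ ≤ _ := mul_le_mul_of_nonneg_left (h3.trans h2) (Real.exp_pos _).le
  · linarith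

/-- a crude moment: all sets with the weight `4 ^ |S|` -/
theorem four (I K : Finset ℕ) (X : ℕ) :
    ∑ S ∈ SS I K X, (4 : ℝ) ^ S.card ≤ X * (1 + Real.log X) ^ 3 := by
  have hL0 : 0 ≤ 1 + Real.log X := by
    have := Real.log_natCast_nonneg X
    linarith
  -- pairs
  have h1 : ∀ S ∈ SS I K X, (4 : ℝ) ^ S.card = ∑ A ∈ S.powerset, (2 : ℝ) ^ A.card * 2 ^ (S \ A).card := by
    intro S _
    have e : ∀ A ∈ S.powerset, (2 : ℝ) ^ A.card * 2 ^ (S \ A).card = 2 ^ S.card := by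
      intro A hA
      rw [← pow_add, add_comm, card_sdiff_add_card_eq_card (mem_powerset.1 hA)]
    rw [sum_congr rfl e, sum_const, card_powerset, nsmul_eq_mul]
    push_cast
    rw [← mul_pow]
    norm_num
  have hsub : ∀ S ∈ SS I K X, ∀ A, A ⊆ S → A ∈ SS I K X := by
    intro S hS A hA
    unfold SS at hS ⊢
    rw [mem_filter, mem_powerset] at hS ⊢
    refine ⟨hA.trans hS.1, fun p hp => hS.2.1 p (hA hp), le_trans ?_ hS.2.2⟩
    exact prod_le_prod_of_subset_of_one_le' hA fun p hp _ => (pr (hS.2.1 p hp)).one_lt.le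
  have h2 : ∑ S ∈ SS I K X, (4 : ℝ) ^ S.card ≤
      ∑ A ∈ SS I K X, (2 : ℝ) ^ A.card * ∑ B ∈ SS I K (X / ∏ p ∈ A, p), (2 : ℝ) ^ B.card := by
    rw [sum_congr rfl h1, sum_sigma']
    simp_rw [mul_sum]
    rw [sum_sigma']
    refine le_trans (le_of_eq ?_) (sum_le_sum_of_subset_of_nonneg
      (s := ((SS I K X).sigma fun S => S.powerset).image fun x => ⟨x.2, x.1 \ x.2⟩) ?_
      fun _ _ _ => by positivity)
    · rw [sum_image]
      rintro ⟨S, A⟩ h1 ⟨T, B⟩ h2 h3
      rw [mem_coe, mem_sigma] at h1 h2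
      simp only [Sigma.mk.injEq, heq_eq_eq] at h3
      obtain ⟨rfl, h3⟩ := h3
      have k1 := sdiff_union_of_subset (mem_powerset.1 h1.2)
      have k2 := sdiff_union_of_subset (mem_powerset.1 h2.2)
      simp only at k1 k2
      have k3 : S = T := by rw [← k1, ← k2, h3]
      subst k3
      rfl
    · intro x hx
      rw [mem_image] at hx
      obtain ⟨⟨S, A⟩, h1, rfl⟩ := hx
      rw [mem_sigma] at h1
      have hA := mem_powerset.1 h1.2
      simp only at hA
      have hAS := hsub S h1.1 A hA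
      have hBS := hsub S h1.1 (S \ A) sdiff_subset
      rw [mem_sigma]
      refine ⟨hAS, ?_⟩
      have hN : 0 < ∏ p ∈ A, p := prod_pos' fun p hp => pr ((SS_mem hAS).1 p hp)
      have hle : ∏ p ∈ S \ A, p ≤ X / ∏ p ∈ A, p := by
        rw [Nat.le_div_iff_mul_le hN, prod_sdiff hA]
        exact (SS_mem h1.1).2
      unfold SS
      rw [mem_filter, mem_powerset]
      refine ⟨fun p hp => ?_, (SS_mem hBS).1, hle⟩
      rw [mem_range]
      have := le_of_mem_prod (fun p hp => pr ((SS_mem hBS).1 p hp)) hle hp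
      exact Nat.lt_succ_of_le this
  refine h2.trans ?_
  have h3 : ∀ A ∈ SS I K X, (2 : ℝ) ^ A.card * ∑ B ∈ SS I K (X / ∏ p ∈ A, p), (2 : ℝ) ^ B.card ≤
      X * (1 + Real.log X) * ((2 : ℝ) ^ A.card / ((∏ p ∈ A, p : ℕ) : ℝ)) := by
    intro A hA
    have hN : 0 < ∏ p ∈ A, p := prod_pos' fun p hp => pr ((SS_mem hA).1 p hp)
    have hNr : (0 : ℝ) < ((∏ p ∈ A, p : ℕ) : ℝ) := by exact_mod_cast hN
    have h4 := CNT.sum_two_pow I K (X / ∏ p ∈ A, p)
    have h5 : ((X / ∏ p ∈ A, p : ℕ) : ℝ) ≤ (X : ℝ) / ((∏ p ∈ A, p : ℕ) : ℝ) := Nat.cast_div_le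
    have h6 : Real.log ((X / ∏ p ∈ A, p : ℕ) : ℝ) ≤ Real.log X := by
      rcases Nat.eq_zero_or_pos (X / ∏ p ∈ A, p) with h0 | h0
      · rw [h0, Nat.cast_zero, Real.log_zero]
        exact Real.log_natCast_nonneg X
      · exact Real.log_le_log (by exact_mod_cast h0) (by exact_mod_cast Nat.div_le_self _ _)
    have h7 : ∑ B ∈ SS I K (X / ∏ p ∈ A, p), (2 : ℝ) ^ B.card ≤
        (X : ℝ) / ((∏ p ∈ A, p : ℕ) : ℝ) * (1 + Real.log X) := by
      refine h4.trans ?_
      have h8 : 0 ≤ 1 + Real.log ((X / ∏ p ∈ A, p : ℕ) : ℝ) := by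
        have := Real.log_natCast_nonneg (X / ∏ p ∈ A, p)
        linarith
      exact mul_le_mul h5 (by linarith) h8 (by positivity)
    calc (2 : ℝ) ^ A.card * ∑ B ∈ SS I K (X / ∏ p ∈ A, p), (2 : ℝ) ^ B.card ≤
          (2 : ℝ) ^ A.card * ((X : ℝ) / ((∏ p ∈ A, p : ℕ) : ℝ) * (1 + Real.log X)) :=
          mul_le_mul_of_nonneg_left h7 (by positivity)
      _ = _ := by ring
  refine (sum_le_sum h3).trans ?_
  rw [← mul_sum]
  -- the logarithmic sum with the weight `2 ^ |A|`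
  have h4 : ∑ A ∈ SS I K X, (2 : ℝ) ^ A.card / ((∏ p ∈ A, p : ℕ) : ℝ) ≤ (1 + Real.log X) ^ 2 := by
    have e : ∀ S ∈ SS I K X, (2 : ℝ) ^ S.card / ((∏ p ∈ S, p : ℕ) : ℝ) =
        ∑ A ∈ S.powerset, (1 : ℝ) / ((∏ p ∈ A, p : ℕ) : ℝ) *
          (1 / ((∏ p ∈ S \ A, p : ℕ) : ℝ)) := by
      intro S _
      have e1 : ∀ A ∈ S.powerset, (1 : ℝ) / ((∏ p ∈ A, p : ℕ) : ℝ) *
          (1 / ((∏ p ∈ S \ A, p : ℕ) : ℝ)) = 1 / ((∏ p ∈ S, p : ℕ) : ℝ) := by
        intro A hA
        rw [one_div_mul_one_div, ← Nat.cast_mul, mul_comm (∏ p ∈ A, p), prod_sdiff (mem_powerset.1 hA)]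
      rw [sum_congr rfl e1, sum_const, card_powerset, nsmul_eq_mul]
      push_cast
      ring
    have h5 : ∑ A ∈ SS I K X, (1 : ℝ) / ((∏ p ∈ A, p : ℕ) : ℝ) ≤ 1 + Real.log X := by
      refine le_trans (sum_le_sum_of_subset_of_nonneg ?_ fun _ _ _ => by positivity)
        (Pool.Agent.R413.SQ.KEY.harm_TT X)
      intro S hS
      exact Pool.Agent.R413.SQ.KEY.mem_TT (fun p hp => pr ((SS_mem hS).1 p hp)) (SS_mem hS).2
    have h6 : ∑ S ∈ SS I K X, (2 : ℝ) ^ S.card / ((∏ p ∈ S, p : ℕ) : ℝ) ≤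
        (∑ A ∈ SS I K X, (1 : ℝ) / ((∏ p ∈ A, p : ℕ) : ℝ)) ^ 2 := by
      rw [sum_congr rfl e, sum_sigma', pow_two, sum_mul_sum, ← sum_product'
        (f := fun A B => (1 : ℝ) / ((∏ p ∈ A, p : ℕ) : ℝ) * (1 / ((∏ p ∈ B, p : ℕ) : ℝ)))]
      refine le_trans (le_of_eq ?_) (sum_le_sum_of_subset_of_nonneg
        (s := ((SS I K X).sigma fun S => S.powerset).image fun x => (x.2, x.1 \ x.2)) ?_
        fun _ _ _ => by positivity)
      · rw [sum_image]
        rintro ⟨S, A⟩ h1 ⟨T, B⟩ h2 h3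
        rw [mem_coe, mem_sigma] at h1 h2
        simp only [Prod.mk.injEq] at h3
        obtain ⟨rfl, h3⟩ := h3
        have k1 := sdiff_union_of_subset (mem_powerset.1 h1.2)
        have k2 := sdiff_union_of_subset (mem_powerset.1 h2.2)
        simp only at k1 k2
        have k3 : S = T := by rw [← k1, ← k2, h3]
        subst k3
        rfl
      · intro x hx
        rw [mem_image] at hx
        obtain ⟨⟨S, A⟩, h1, rfl⟩ := hx
        rw [mem_sigma] at h1
        rw [mem_product]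
        exact ⟨hsub S h1.1 A (mem_powerset.1 h1.2), hsub S h1.1 _ sdiff_subset⟩
    refine h6.trans (pow_le_pow_left₀ (sum_nonneg fun _ _ => by positivity) h5 2)
  calc X * (1 + Real.log X) * ∑ A ∈ SS I K X, (2 : ℝ) ^ A.card / ((∏ p ∈ A, p : ℕ) : ℝ) ≤
        X * (1 + Real.log X) * (1 + Real.log X) ^ 2 :=
        mul_le_mul_of_nonneg_left h4 (by positivity)
    _ = _ := by ring

end Run7.h238.WFew
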