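import Pool.Agent.R413.SQ.Asy
import Pool.Agent.Y37.CX.An
import Pool.Agent.Run7.h238.WFew

/-!
# Weighted sums over the exceptional sets, second part
-/

set_option autoImplicit false

open scoped Classical

namespace Run7.h238.WTail

open Finset hiding mk
open Filter hiding mk
open Pool.Agent.Y703.CX (sm la jj XX eL zz kk S_SIE logX_eq rpow_eL HH ev_eL one_le_exp
  HH_ge HH_le HH_pos kk_ge kk_le X_pos one_add_log lin_le kap zz_pos kap_nonneg kap_pow
  kap_le)
open Pool.Agent.R413.SQ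
open Pool.Agent.Y703.CQ (nr S_MER)
open Pool.Agent.Y495.CX.Few (PN mert eL_tendsto log_small zz_ge loglog_zz)
open Pool.Agent.R413.SQ.FEW (LL mem_LL_of SS_mem moment pr)
open Run7.h238.WFew

/-- the inequality of Cauchy and Schwarz -/
theorem cs {I K : Finset ℕ} {X : ℕ} {F : Finset (Finset ℕ)} (hF : F ⊆ SS I K X) :
    wt F ≤ Real.sqrt ((F.card : ℝ) * (X * (1 + Real.log X) ^ 3)) := by
  apply Real.le_sqrt_of_sq_le
  unfold wt
  have h1 := sum_mul_sq_le_sq_mul_sq F (fun _ => (1 : ℝ)) fun S => (2 : ℝ) ^ S.card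
  simp only [one_mul, one_pow, sum_const, nsmul_eq_mul, mul_one] at h1
  refine h1.trans (mul_le_mul_of_nonneg_left ?_ (Nat.cast_nonneg _))
  refine le_trans ?_ (four I K X)
  have e : ∀ S ∈ F, ((2 : ℝ) ^ S.card) ^ 2 = 4 ^ S.card := by
    intro S _
    rw [← pow_mul, mul_comm, pow_mul]
    norm_num
  rw [sum_congr rfl e]
  exact sum_le_sum_of_subset_of_nonneg hF fun _ _ _ => by positivity

theorem cs_ev {I K : Finset ℕ} {F : ℕ → Finset (Finset ℕ)} (hF : ∀ X, F X ⊆ SS I K X) {C a : ℝ}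
    (hC : 0 ≤ C) (h : ∀ᶠ X : ℕ in atTop, ((F X).card : ℝ) ≤ C * (X * Real.exp (-a * eL X))) :
    ∀ᶠ X : ℕ in atTop, wt (F X) ≤ Real.sqrt (8 * C) * (X * Real.exp (-((a - 3) / 2) * eL X)) := by
  filter_upwards [h, ev_eL 1] with X h1 h2
  have h0 : 0 < eL X := by linarith
  have hX0 : (0 : ℝ) ≤ X := Nat.cast_nonneg _
  refine (cs (hF X)).trans ?_
  have h3 := one_add_log h0
  have h3' : 0 ≤ 1 + Real.log X := by
    have := Real.log_natCast_nonneg X
    linarith
  have h4 : (1 + Real.log X) ^ 3 ≤ 8 * Real.exp (3 * eL X) := by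
    refine (pow_le_pow_left₀ h3' h3 3).trans (le_of_eq ?_)
    rw [mul_pow, ← Real.exp_nat_mul]
    norm_num
  have h5 : ((F X).card : ℝ) * (X * (1 + Real.log X) ^ 3) ≤
      8 * C * (X * Real.exp (-((a - 3) / 2) * eL X)) ^ 2 := by
    calc ((F X).card : ℝ) * (X * (1 + Real.log X) ^ 3) ≤
          (C * (X * Real.exp (-a * eL X))) * (X * (8 * Real.exp (3 * eL X))) := by
          gcongr
      _ = 8 * C * (X ^ 2 * (Real.exp (-a * eL X) * Real.exp (3 * eL X))) := by ring
      _ = _ := by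
          rw [mul_pow, ← Real.exp_nat_mul, ← Real.exp_add]
          congr 3
          push_cast
          ring_nf
  refine (Real.sqrt_le_sqrt h5).trans (le_of_eq ?_)
  rw [Real.sqrt_mul (by positivity), Real.sqrt_sq (by positivity)]

theorem sml_cs {I K : Finset ℕ} {F : ℕ → Finset (Finset ℕ)} (hF : ∀ X, F X ⊆ SS I K X) {C a : ℝ}
    (hC : 0 ≤ C) (ha : 3 < a)
    (h : ∀ᶠ X : ℕ in atTop, ((F X).card : ℝ) ≤ C * (X * Real.exp (-a * eL X))) :
    Sml 0 fun X => wt (F X) :=
  sml_of (a := (a - 3) / 2) (by linarith) (cs_ev hF hC h)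

theorem sml_mono {E F : ℕ → ℝ} (h : ∀ᶠ X : ℕ in atTop, E X ≤ F X) (hF : Sml 0 F) : Sml 0 E := by
  intro δ hδ
  filter_upwards [h, hF δ hδ] with X h1 h2
  exact h1.trans h2

/-- the block parameter -/
noncomputable def H2 (X : ℕ) : ℕ := HH X ^ 7

theorem H2_ge {X : ℕ} (h : 0 < eL X) : Real.exp (21 * eL X) ≤ H2 X := by
  unfold H2
  push_cast
  have h1 := pow_le_pow_left₀ (Real.exp_pos _).le (HH_ge h) 7
  rw [← Real.exp_nat_mul] at h1
  refine le_trans (le_of_eq ?_) h1
  congr 1
  push_cast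
  ring

theorem H2_le {X : ℕ} (h : 0 < eL X) : (H2 X : ℝ) ≤ 128 * Real.exp (21 * eL X) := by
  unfold H2
  push_cast
  have h1 := pow_le_pow_left₀ (Nat.cast_nonneg _) (HH_le h) 7
  rw [mul_pow, ← Real.exp_nat_mul] at h1
  refine h1.trans (le_of_eq ?_)
  norm_num
  ring

theorem H2_pos {X : ℕ} (h : 0 < eL X) : 1 ≤ H2 X := Nat.one_le_pow _ _ (HH_pos h)

/-- the number of blocks -/
noncomputable def N2 (X : ℕ) : ℕ := ⌊(H2 X : ℝ) * Real.log X⌋₊ + 1

/-- sets with many primes -/
theorem sml_many {I K : Finset ℕ} (hO : Ok I K) (h : CntP) :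
    Sml 0 fun X => wt ((SS I K X).filter fun S => kk X < S.card) := by
  refine sml_cs (C := 2) (a := 5) (fun X => filter_subset _ _) (by norm_num) (by norm_num) ?_
  filter_upwards [ev_eL 1] with X hX
  have h0 : 0 < eL X := by linarith
  have h1 := h.many I K X (kk X) hO (X_pos h0)
  have h2 : Real.exp (6 * eL X) ≤ 2 ^ kk X := by
    have e : (2 : ℝ) ^ kk X = Real.exp (kk X * Real.log 2) := by
      rw [mul_comm, Real.exp_mul, Real.exp_log (by norm_num), Real.rpow_natCast]
    rw [e]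
    apply Real.exp_le_exp.2
    have h3 := kk_ge X
    have h4 := Real.log_two_gt_d9
    nlinarith
  have hX0 : (0 : ℝ) ≤ X := Nat.cast_nonneg _
  have h5 : (((SS I K X).filter fun S => kk X < S.card).card : ℝ) * Real.exp (6 * eL X) ≤
      X * (2 * Real.exp (eL X)) := by
    calc _ ≤ (((SS I K X).filter fun S => kk X < S.card).card : ℝ) * 2 ^ kk X := by gcongr
      _ ≤ X * (1 + Real.log X) := h1
      _ ≤ _ := mul_le_mul_of_nonneg_left (one_add_log h0) hX0
  have h6 : (2 : ℝ) * (X * Real.exp (-5 * eL X)) * Real.exp (6 * eL X) = X * (2 * Real.exp (eL X)) := by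
    have e : Real.exp (-5 * eL X) * Real.exp (6 * eL X) = Real.exp (eL X) := by
      rw [← Real.exp_add]; congr 1; ring
    calc _ = 2 * X * (Real.exp (-5 * eL X) * Real.exp (6 * eL X)) := by ring
      _ = _ := by rw [e]; ring
  rw [← h6] at h5
  exact le_of_mul_le_mul_right h5 (Real.exp_pos _)

/-- powers of the logarithm are small -/
theorem exp_le_X (m : ℕ) : ∀ᶠ X : ℕ in atTop, Real.exp (m * eL X) ≤ X := by
  have h1 := Pool.Agent.Y37.CX.ev_pow m (show (0 : ℝ) < 1 by norm_num) (show (0 : ℝ) < 1 by norm_num)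
  have h2 := (Real.tendsto_log_atTop.comp tendsto_natCast_atTop_atTop).eventually h1
  filter_upwards [h2, ev_eL 1] with X h3 h4
  have h0 : 0 < eL X := by linarith
  simp only [Function.comp, one_mul, div_one] at h3
  have hX : (0 : ℝ) < X := by exact_mod_cast X_pos h0
  rw [Real.exp_log hX, logX_eq h0, ← Real.exp_nat_mul] at h3
  exact h3

/-- sets near the boundary -/
theorem sml_cut {I K : Finset ℕ} (hO : Ok I K) (h : CntP) :
    Sml 0 fun X => wt ((SS I K X).filter fun S => S.card ≤ kk X ∧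
    X < (∏ p ∈ sm (zz X) S, p) * ∏ p ∈ la (zz X) S, XX (H2 X) (jj (H2 X) p)) := by
  refine sml_cs (C := 2) (a := 5) (fun X => filter_subset _ _) (by norm_num) (by norm_num) ?_
  filter_upwards [ev_eL 1, lin_le (a := 1) (b := 11) (by norm_num) (by norm_num), exp_le_X 5]
    with X hX h11 hl
  have h0 : 0 < eL X := by linarith
  have h1 := h.cut I K X (zz X) (H2 X) (kk X) hO (X_pos h0) (H2_pos h0)
  refine h1.trans ?_
  have hH := H2_ge h0
  have hHp : (0 : ℝ) < H2 X := lt_of_lt_of_le (Real.exp_pos _) hH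
  have hX0 : (0 : ℝ) ≤ X := Nat.cast_nonneg _
  have h2 : (X : ℝ) * kk X / H2 X ≤ X * Real.exp (-5 * eL X) := by
    rw [div_le_iff₀ hHp]
    calc (X : ℝ) * kk X ≤ X * Real.exp (eL X) := by
          have := kk_le hX
          rw [one_mul] at h11
          have : (kk X : ℝ) ≤ Real.exp (eL X) := by linarith
          gcongr
      _ ≤ X * (Real.exp (-5 * eL X) * Real.exp (21 * eL X)) := by
          rw [← Real.exp_add]
          apply mul_le_mul_of_nonneg_left _ hX0
          apply Real.exp_le_exp.2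
          linarith
      _ ≤ X * Real.exp (-5 * eL X) * H2 X := by
          rw [mul_assoc]
          gcongr
  have h3 : (1 : ℝ) ≤ X * Real.exp (-5 * eL X) := by
    have e : Real.exp ((5 : ℕ) * eL X) * Real.exp (-5 * eL X) = 1 := by
      rw [← Real.exp_add]
      have : (5 : ℕ) * eL X + -5 * eL X = 0 := by push_cast; ring
      rw [this, Real.exp_zero]
    calc (1 : ℝ) = Real.exp ((5 : ℕ) * eL X) * Real.exp (-5 * eL X) := e.symm
      _ ≤ X * Real.exp (-5 * eL X) := mul_le_mul_of_nonneg_right hl (Real.exp_pos _).le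
  linarith

/-- sets with two primes in one block -/
theorem sml_coll {I K : Finset ℕ} (hO : Ok I K) (h : CntP) :
    Sml 0 fun X => wt ((SS I K X).filter fun S =>
    ¬ Set.InjOn (jj (H2 X)) (la (zz X) S : Set ℕ)) := by
  refine sml_cs (C := 8) (a := 5) (fun X => filter_subset _ _) (by norm_num) (by norm_num) ?_
  filter_upwards [ev_eL 1] with X hX
  have h0 : 0 < eL X := by linarith
  have h1 := h.coll I K X (zz X) (H2 X) hO (X_pos h0) (H2_pos h0)
  refine h1.trans ?_
  have hH := H2_ge h0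
  have hHp : (0 : ℝ) < H2 X := lt_of_lt_of_le (Real.exp_pos _) hH
  have hX0 : (0 : ℝ) ≤ X := Nat.cast_nonneg _
  rw [div_le_iff₀ hHp]
  calc 4 * (X : ℝ) * (1 + Real.log X) ≤ 4 * X * (2 * Real.exp (eL X)) := by
        have := one_add_log h0
        gcongr
    _ ≤ 8 * (X * (Real.exp (-5 * eL X) * Real.exp (21 * eL X))) := by
        rw [← Real.exp_add]
        have h2 : Real.exp (eL X) ≤ Real.exp (-5 * eL X + 21 * eL X) :=
          Real.exp_le_exp.2 (by linarith)
        nlinarith
    _ ≤ 8 * (X * (Real.exp (-5 * eL X) * H2 X)) := by gcongr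
    _ = 8 * (X * Real.exp (-5 * eL X)) * H2 X := by ring

/-- sets with many small primes -/
theorem sml_small (I K : Finset ℕ) :
    Sml 0 fun X => wt ((SS I K X).filter fun S => eL X / 80 < ((sm (zz X) S).card : ℝ)) := by
  obtain ⟨C, hC0, hC⟩ := mert
  set κ : ℝ := Real.exp 400 with hκ
  have κ0 : 0 < κ := Real.exp_pos _
  refine sml_cs (C := Real.exp (κ * C)) (a := 4) (fun X => filter_subset _ _)
    (Real.exp_pos _).le (by norm_num) ?_
  filter_upwards [eL_tendsto.eventually (log_small (3 * κ) 1 (by norm_num)),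
    eL_tendsto.eventually (eventually_ge_atTop 2)] with X h1 h2
  have h3 := moment X (zz X) (SS I K X)
    (fun S hS => ⟨fun p hp => pr ((SS_mem hS).1 p hp), (SS_mem hS).2⟩) κ κ0.le
  have h4 := hC (zz X) (zz_ge h2)
  have h5 := loglog_zz h2
  have h6 : (((SS I K X).filter fun S => eL X / 80 < ((sm (zz X) S).card : ℝ)).card : ℝ) *
      Real.exp (5 * eL X) ≤ ∑ S ∈ SS I K X, κ ^ (sm (zz X) S).card := by
    rw [← nsmul_eq_mul, ← sum_const]
    refine le_trans ?_ (sum_le_sum_of_subset_of_nonneg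
      (filter_subset (fun S => eL X / 80 < ((sm (zz X) S).card : ℝ)) (SS I K X))
      fun S _ _ => by positivity)
    refine sum_le_sum fun S hS => ?_
    rw [mem_filter] at hS
    rw [hκ, ← Real.exp_nat_mul]
    apply Real.exp_le_exp.2
    linarith [hS.2]
  have h7 := h6.trans h3
  have h8 : κ * ∑ p ∈ PN (zz X), (1 : ℝ) / p ≤ κ * C + 1 * eL X := by
    have : κ * ∑ p ∈ PN (zz X), (1 : ℝ) / p ≤ κ * (3 * Real.log (eL X) + C) :=
      mul_le_mul_of_nonneg_left (by linarith) κ0.le
    nlinarith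
  have h9 : (X : ℝ) * Real.exp (κ * ∑ p ∈ PN (zz X), (1 : ℝ) / p) ≤
      X * (Real.exp (κ * C) * Real.exp (1 * eL X)) := by
    rw [← Real.exp_add]
    exact mul_le_mul_of_nonneg_left (Real.exp_le_exp.2 h8) (Nat.cast_nonneg _)
  have h10 := h7.trans h9
  have h11 : (Real.exp (κ * C) * (X * Real.exp (-4 * eL X))) * Real.exp (5 * eL X) =
      X * (Real.exp (κ * C) * Real.exp (1 * eL X)) := by
    have : Real.exp (1 * eL X) = Real.exp (-4 * eL X) * Real.exp (5 * eL X) := by
      rw [← Real.exp_add]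
      congr 1
      ring
    rw [this]
    ring
  rw [← h11] at h10
  exact le_of_mul_le_mul_right h10 (Real.exp_pos _)

/-- sets with few large split primes or with no large inert prime -/
theorem sml_few (hs : S_SIE) (hm : S_MER) {I K : Finset ℕ} (V : ℕ) :
    Sml 0 fun X => wt ((SS I K X).filter fun S => ((la (zz X) S).filter fun p => mk p = 1).card ≤
      2 * (sm (zz X) S).card + V ∨ ∀ p ∈ la (zz X) S, mk p = 1) := by
  obtain ⟨C₂, hC₂, h2⟩ := part3w hs hm (I := I) (r := -(1 / 5)) (by norm_num)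
  obtain ⟨C₃, hC₃, h3⟩ := part4w hs hm (I := I) (r := -(1 / 5)) (by norm_num)
  have s2 : Sml 0 fun X => wt (LL I X fun S => ∀ p ∈ la (zz X) S, mk p = 1) := by
    apply sml_of (C := C₂) (a := 1 / 5) (by norm_num)
    filter_upwards [h2] with X h
    rw [← mul_assoc]
    exact h
  have s3 : Sml 0 fun X => wt (LL I X fun S =>
      ((la (zz X) S).filter fun p => mk p = 1).card ≤ ⌊eL X / 32⌋₊) := by
    apply sml_of (C := C₃) (a := 1 / 5) (by norm_num)
    filter_upwards [h3] with X h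
    rw [← mul_assoc]
    exact h
  refine sml_mono ?_ (sml_add (sml_small I K) (sml_add s2 s3))
  filter_upwards [ev_eL (max 2 (160 * (V : ℝ)))] with X h8
  have h9 : 2 ≤ eL X := (le_max_left _ _).trans h8
  have h10 : 160 * (V : ℝ) ≤ eL X := (le_max_right _ _).trans h8
  have h11 : ((SS I K X).filter fun S => ((la (zz X) S).filter fun p => mk p = 1).card ≤
      2 * (sm (zz X) S).card + V ∨ ∀ p ∈ la (zz X) S, mk p = 1) ⊆
      ((SS I K X).filter fun S => eL X / 80 < ((sm (zz X) S).card : ℝ)) ∪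
        (LL I X (fun S => ∀ p ∈ la (zz X) S, mk p = 1) ∪
        LL I X fun S => ((la (zz X) S).filter fun p => mk p = 1).card ≤ ⌊eL X / 32⌋₊) := by
    intro S hS
    rw [mem_filter] at hS
    rw [mem_union, mem_union, mem_filter]
    rcases hS.2 with h | h
    · by_cases hc : eL X / 80 < ((sm (zz X) S).card : ℝ)
      · exact Or.inl ⟨hS.1, hc⟩
      · right
        right
        rw [not_lt] at hc
        refine mem_LL_of hS.1 ?_
        apply Nat.le_floor
        have h12 : ((((la (zz X) S).filter fun p => mk p = 1).card : ℕ) : ℝ) ≤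
            2 * ((sm (zz X) S).card : ℝ) + V := by exact_mod_cast h
        linarith
    · exact Or.inr (Or.inl (mem_LL_of hS.1 h))
  exact (wt_mono h11).trans ((wt_union _ _).trans (add_le_add le_rfl (wt_union _ _)))

/-- the main error term -/
theorem sml_main {C : ℝ} (hC : 1 ≤ C) : Sml 0 fun X => 2 ^ kk X * ((9 * (N2 X : ℝ) + 9) ^ kk X *
    (3 ^ (3 * kk X ^ 2) * kap C X) * (X * (1 + Real.log X))) := by
  apply sml_of (C := 4 * C) (a := 1) (by norm_num)
  filter_upwards [ev_eL 10000] with X hX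
  set l := eL X with hl
  have h0 : 0 < eL X := by linarith
  have h1 : 1 ≤ eL X := by linarith
  have hX0 : (0 : ℝ) ≤ X := Nat.cast_nonneg _
  have hN : 9 * (N2 X : ℝ) + 9 ≤ Real.exp (23 * l) := by
    have h2 : (N2 X : ℝ) ≤ H2 X * Real.log X + 1 := by
      unfold N2
      push_cast
      have := Nat.floor_le (a := (H2 X : ℝ) * Real.log X)
        (mul_nonneg (Nat.cast_nonneg _) (Real.log_natCast_nonneg X))
      linarith
    have h3 : (H2 X : ℝ) * Real.log X ≤ 128 * Real.exp (22 * l) := by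
      rw [logX_eq h0]
      calc (H2 X : ℝ) * Real.exp (eL X) ≤ 128 * Real.exp (21 * eL X) * Real.exp (eL X) :=
            mul_le_mul_of_nonneg_right (H2_le h0) (Real.exp_pos _).le
        _ = 128 * Real.exp (22 * l) := by
            rw [mul_assoc, ← Real.exp_add]
            congr 2
            rw [hl]
            ring
    have h4 : 1 ≤ Real.exp (22 * l) := one_le_exp (by linarith)
    have h5 : (2000 : ℝ) ≤ Real.exp l := by
      have := Real.add_one_le_exp l
      linarith
    have h6 : Real.exp (23 * l) = Real.exp (22 * l) * Real.exp l := by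
      rw [← Real.exp_add]; congr 1; ring
    rw [h6]
    nlinarith
  have hkk := kk_le h1
  have hkk0 : (0 : ℝ) ≤ kk X := Nat.cast_nonneg _
  have hA : (9 * (N2 X : ℝ) + 9) ^ kk X ≤ Real.exp (253 * l ^ 2) := by
    calc (9 * (N2 X : ℝ) + 9) ^ kk X ≤ (Real.exp (23 * l)) ^ kk X := by gcongr
      _ = Real.exp (kk X * (23 * l)) := (Real.exp_nat_mul _ _).symm
      _ ≤ Real.exp (253 * l ^ 2) := by
          apply Real.exp_le_exp.2
          nlinarith
  have hT : (2 : ℝ) ^ kk X ≤ Real.exp (11 * l ^ 2) := by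
    have e : (2 : ℝ) ≤ Real.exp 1 := by
      have := Real.exp_one_gt_d9
      linarith
    calc (2 : ℝ) ^ kk X ≤ (Real.exp 1) ^ kk X := pow_le_pow_left₀ (by norm_num) e _
      _ = Real.exp (kk X * 1) := (Real.exp_nat_mul _ _).symm
      _ ≤ _ := by
          apply Real.exp_le_exp.2
          nlinarith
  have hB : (3 : ℝ) ^ (3 * kk X ^ 2) ≤ Real.exp (400 * l ^ 2) := by
    have e : (3 : ℝ) ^ (3 * kk X ^ 2) = Real.exp ((3 * (kk X : ℝ) ^ 2) * Real.log 3) := by
      rw [mul_comm (3 * (kk X : ℝ) ^ 2) (Real.log 3), Real.exp_mul, Real.exp_log (by norm_num)]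
      rw [← Real.rpow_natCast]
      congr 1
      push_cast
      ring
    rw [e]
    apply Real.exp_le_exp.2
    have h2 : Real.log 3 ≤ 1.1 := by
      have h3 : (3 : ℝ) ≤ Real.exp 1.1 := by
        have h4 : (2.7182818283 : ℝ) < Real.exp 1 := Real.exp_one_gt_d9
        have h5 : (1.105 : ℝ) ≤ Real.exp 0.1 := by
          have := Real.quadratic_le_exp_of_nonneg (x := 0.1) (by norm_num)
          norm_num at this ⊢
          linarith
        have h6 : Real.exp 1.1 = Real.exp 1 * Real.exp 0.1 := by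
          rw [← Real.exp_add]; norm_num
        rw [h6]
        nlinarith
      calc Real.log 3 ≤ Real.log (Real.exp 1.1) := Real.log_le_log (by norm_num) h3
        _ = 1.1 := Real.log_exp _
    have h3 : (kk X : ℝ) ^ 2 ≤ 121 * l ^ 2 := by nlinarith
    have h4 : 0 ≤ (kk X : ℝ) ^ 2 := sq_nonneg _
    nlinarith [sq_nonneg l]
  have hK := kap_le hC h1
  have hLg := one_add_log h0
  have hmain : 2 ^ kk X * ((9 * (N2 X : ℝ) + 9) ^ kk X * (3 ^ (3 * kk X ^ 2) * kap C X) *
      (X * (1 + Real.log X))) ≤ Real.exp (11 * l ^ 2) * (Real.exp (253 * l ^ 2) *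
        (Real.exp (400 * l ^ 2) *
        (2 * C * Real.exp (-l ^ 3 / 12))) * (X * (2 * Real.exp l))) := by
    have := kap_nonneg hC X
    have : 0 ≤ 1 + Real.log X := by
      have := Real.log_natCast_nonneg X
      linarith
    gcongr
  refine hmain.trans ?_
  have e : Real.exp (11 * l ^ 2) * (Real.exp (253 * l ^ 2) * (Real.exp (400 * l ^ 2) *
        (2 * C * Real.exp (-l ^ 3 / 12))) * (X * (2 * Real.exp l))) =
      4 * C * (X * Real.exp (11 * l ^ 2 + 253 * l ^ 2 + 400 * l ^ 2 + -l ^ 3 / 12 + l)) := by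
    rw [Real.exp_add, Real.exp_add, Real.exp_add, Real.exp_add]
    ring
  rw [e]
  have h9 : 11 * l ^ 2 + 253 * l ^ 2 + 400 * l ^ 2 + -l ^ 3 / 12 + l ≤ -1 * l := by
    have h10 : 10000 * l ^ 2 ≤ l ^ 3 := by
      have : l ^ 3 = l * l ^ 2 := by ring
      rw [this]
      exact mul_le_mul_of_nonneg_right hX (sq_nonneg l)
    nlinarith
  have h11 := Real.exp_le_exp.2 h9
  have hC0 : (0 : ℝ) ≤ 4 * C := by linarith
  gcongr

end Run7.h238.WTail
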