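import Mathlib
import Pool.Agent.H383.Reps

/-!
# The number of primitive Gaussian integers of given norm
-/

set_option autoImplicit false

open Set

namespace Run7.h238.PRep

open Pool.Agent.H383.Gauss

/-- the primitive Gaussian integers of norm `n` -/
def PR (n : ℕ) : Set GaussianInt :=
  {z | z.norm = (n : ℤ) ∧ ∀ q : ℕ, q.Prime → ¬ ((q : GaussianInt) ∣ z)}

theorem PR_sub (n : ℕ) : PR n ⊆ A n := fun _ h => h.1

theorem PR_finite (n : ℕ) : (PR n).Finite := (A_finite n).subset (PR_sub n)

theorem norm_pow' (π : GaussianInt) (e : ℕ) : (π ^ e).norm = π.norm ^ e := by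
  exact map_pow (Zsqrtd.normMonoidHom (d := -1)) π e

/-- a prime element above a prime number `1 mod 4` -/
theorem exists_pi {p : ℕ} (hp : p.Prime) (h4 : p % 4 = 1) :
    ∃ π : GaussianInt, Prime π ∧ π.norm = (p : ℤ) ∧ ¬ π ∣ star π := by
  have : Fact p.Prime := ⟨hp⟩
  obtain ⟨a, b, hab⟩ := Nat.Prime.sq_add_sq (p := p) (by omega)
  set π : GaussianInt := ⟨a, b⟩ with hπdef
  have hn : π.norm = p := by
    rw [norm_eq, hπdef]
    show (a : ℤ) ^ 2 + (b : ℤ) ^ 2 = p
    exact_mod_cast hab
  have hπirr : Irreducible π := by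
    refine ⟨?_, ?_⟩
    · intro hu
      have := Zsqrtd.norm_eq_one_iff.mpr hu
      rw [hn] at this
      simp at this
      exact hp.one_lt.ne' this
    · intro x y hxy
      have h1 : x.norm.natAbs * y.norm.natAbs = p := by
        rw [← Int.natAbs_mul, ← Zsqrtd.norm_mul, ← hxy, hn]; simp
      rcases (Nat.dvd_prime hp).mp ⟨_, h1.symm⟩ with h | h
      · left; exact Zsqrtd.norm_eq_one_iff.mp h
      · right
        rw [h] at h1
        have : y.norm.natAbs = 1 := by
          have hp0 := hp.pos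
          nlinarith
        exact Zsqrtd.norm_eq_one_iff.mp this
  refine ⟨π, hπirr.prime, hn, ?_⟩
  intro h
  have h1 : π ∣ ((2 * a : ℤ) : GaussianInt) := by
    have h2 : ((2 * a : ℤ) : GaussianInt) = π + star π := by
      rw [hπdef]
      ext
      · simp; ring
      · simp
    rw [h2]
    exact dvd_add dvd_rfl h
  have h2 : (p : ℤ) ∣ (2 * a) * (2 * a) := by
    obtain ⟨c, hc⟩ := h1
    have := congrArg Zsqrtd.norm hc
    rw [Zsqrtd.norm_intCast, Zsqrtd.norm_mul, hn] at this
    exact ⟨_, this⟩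
  have h3 : p ∣ (2 * a) * (2 * a) := by exact_mod_cast h2
  have h4' : p ∣ a := by
    rcases (Nat.Prime.dvd_mul hp).mp h3 with h | h <;>
    · rcases (Nat.Prime.dvd_mul hp).mp h with h' | h'
      · exfalso
        have := Nat.le_of_dvd (by norm_num) h'
        have h5 := hp.two_le
        omega
      · exact h'
  have h5 : a = 0 := by
    by_contra h0
    have h6 := Nat.le_of_dvd (Nat.pos_of_ne_zero h0) h4'
    have h7 := hp.two_le
    nlinarith
  rw [h5] at hab
  have h8 : b * b = p := by nlinarith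
  rcases (Nat.dvd_prime hp).mp ⟨b, h8.symm⟩ with h9 | h9
  · rw [h9] at h8
    have := hp.two_le
    omega
  · rw [h9] at h8
    have := hp.two_le
    nlinarith

theorem natCast_dvd_of_coprime {q : ℕ} {m : ℤ} {z : GaussianInt} (hq : IsCoprime (q : ℤ) m)
    (h : (q : GaussianInt) ∣ (m : GaussianInt) * z) : (q : GaussianInt) ∣ z := by
  obtain ⟨u, v, huv⟩ := hq
  have e : z = (u : GaussianInt) * ((q : GaussianInt) * z) + (v : GaussianInt) * ((m : GaussianInt) * z) := by
    have h1 : ((u * (q : ℤ) + v * m : ℤ) : GaussianInt) = 1 := by rw [huv]; simp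
    calc z = ((u * (q : ℤ) + v * m : ℤ) : GaussianInt) * z := by rw [h1, one_mul]
      _ = _ := by push_cast; ring
  rw [e]
  exact dvd_add ((dvd_mul_right _ _).mul_left _) (h.mul_left _)

/-- multiplication by the power of a prime element -/
theorem mul_mem {p m : ℕ} (hp : p.Prime) (hpm : ¬ p ∣ m) {π : GaussianInt} (hπ : Prime π)
    (hn : π.norm = (p : ℤ)) (hco : ¬ π ∣ star π) {e : ℕ} {w : GaussianInt} (hw : w ∈ PR m) :
    π ^ e * w ∈ PR (p ^ e * m) := by
  have hpp : (p : GaussianInt) = π * star π := by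
    rw [mul_star_eq, hn]; push_cast; rfl
  have hst : Prime (star π) := star_prime hπ
  have hns : (star π).norm = (p : ℤ) := by rw [Zsqrtd.norm_conj, hn]
  refine ⟨?_, fun q hq hd => ?_⟩
  · rw [Zsqrtd.norm_mul, norm_pow', hn, hw.1]
    push_cast
    ring
  · by_cases hqp : q = p
    · subst hqp
      -- `star π` divides `w`
      have h1 : star π ∣ π ^ e * w := (Dvd.intro_left π hpp.symm).trans hd
      rcases hst.dvd_or_dvd h1 with h2 | h2
      · have h3 := hst.dvd_of_dvd_pow h2
        have h4 := dvd_star h3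
        rw [star_star] at h4
        exact hco h4
      · obtain ⟨c, hc⟩ := h2
        have h3 := congrArg Zsqrtd.norm hc
        rw [Zsqrtd.norm_mul, hns, hw.1] at h3
        apply hpm
        have h4 : (q : ℤ) ∣ m := ⟨_, h3⟩
        exact_mod_cast h4
    · apply hw.2 q hq
      have h1 : (q : GaussianInt) ∣ (((p : ℤ) ^ e : ℤ) : GaussianInt) * w := by
        have h2 : (((p : ℤ) ^ e : ℤ) : GaussianInt) * w = (star π) ^ e * (π ^ e * w) := by
          push_cast
          rw [hpp, mul_pow]
          ring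
        rw [h2]
        exact hd.mul_left _
      refine natCast_dvd_of_coprime ?_ h1
      apply IsCoprime.pow_right
      exact Nat.isCoprime_iff_coprime.2 ((Nat.coprime_primes hq hp).2 hqp)

/-- the step -/
theorem step {p m : ℕ} (hp : p.Prime) (hpm : ¬ p ∣ m) {π : GaussianInt} (hπ : Prime π)
    (hn : π.norm = (p : ℤ)) (hco : ¬ π ∣ star π) (e : ℕ) :
    PR (p ^ e * m) = ((fun w => π ^ e * w) '' PR m) ∪ ((fun w => (star π) ^ e * w) '' PR m) := by
  have hst : Prime (star π) := star_prime hπ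
  have hns : (star π).norm = (p : ℤ) := by rw [Zsqrtd.norm_conj, hn]
  have hco' : ¬ star π ∣ star (star π) := by
    rw [star_star]
    intro h
    have h1 := dvd_star h
    rw [star_star] at h1
    exact hco h1
  apply Set.Subset.antisymm
  · intro z hz
    have hpz : ¬ (p : GaussianInt) ∣ z := hz.2 p hp
    rcases step_odd hp hpm hπ hn hco e hz.1 hpz with h | h
    · left
      obtain ⟨w, hw, rfl⟩ := sub_pi hp hn e hz.1 h
      exact ⟨w, ⟨hw, fun q hq hd => hz.2 q hq (hd.mul_left _)⟩, rfl⟩
    · right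
      obtain ⟨w, hw, rfl⟩ := sub_pi hp hns e hz.1 h
      exact ⟨w, ⟨hw, fun q hq hd => hz.2 q hq (hd.mul_left _)⟩, rfl⟩
  · rintro z (⟨w, hw, rfl⟩ | ⟨w, hw, rfl⟩)
    · exact mul_mem hp hpm hπ hn hco hw
    · exact mul_mem hp hpm hst hns hco' hw

/-- the number in one step -/
theorem card_step {p m e : ℕ} (hp : p.Prime) (h4 : p % 4 = 1) (hpm : ¬ p ∣ m) (he : e ≠ 0) :
    (PR (p ^ e * m)).ncard = 2 * (PR m).ncard := by
  obtain ⟨π, hπ, hn, hco⟩ := exists_pi hp h4
  have hst : Prime (star π) := star_prime hπ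
  have hns : (star π).norm = (p : ℤ) := by rw [Zsqrtd.norm_conj, hn]
  rw [step hp hpm hπ hn hco e, ncard_union_eq ?_ ((PR_finite m).image _) ((PR_finite m).image _),
    ncard_image_of_injective, ncard_image_of_injective]
  · ring
  · intro a b hab
    exact mul_left_cancel₀ (pow_ne_zero e hst.ne_zero) hab
  · intro a b hab
    exact mul_left_cancel₀ (pow_ne_zero e hπ.ne_zero) hab
  · rw [Set.disjoint_left]
    rintro _ ⟨w, hw, rfl⟩ ⟨w', hw', h⟩
    simp only at h
    have h1 : π ∣ (star π) ^ e * w' := by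
      rw [h]
      exact (dvd_pow_self π he).mul_right _
    rcases hπ.dvd_or_dvd h1 with h2 | h2
    · exact hco (hπ.dvd_of_dvd_pow h2)
    · obtain ⟨c, hc⟩ := h2
      have h3 := congrArg Zsqrtd.norm hc
      rw [Zsqrtd.norm_mul, hn, hw'.1] at h3
      apply hpm
      have h5 : (p : ℤ) ∣ m := ⟨_, h3⟩
      exact_mod_cast h5

theorem PR_one : PR 1 = {⟨1, 0⟩, ⟨-1, 0⟩, ⟨0, 1⟩, ⟨0, -1⟩} := by
  ext z
  obtain ⟨x, y⟩ := z
  constructor
  · rintro ⟨h1, -⟩
    rw [norm_eq] at h1
    simp only [Nat.cast_one] at h1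
    have hx : -1 ≤ x ∧ x ≤ 1 := by constructor <;> nlinarith [sq_nonneg y, sq_nonneg (x-1), sq_nonneg (x+1)]
    have hy : -1 ≤ y ∧ y ≤ 1 := by constructor <;> nlinarith [sq_nonneg x, sq_nonneg (y-1), sq_nonneg (y+1)]
    obtain ⟨hx1, hx2⟩ := hx
    obtain ⟨hy1, hy2⟩ := hy
    interval_cases x <;> interval_cases y <;> simp at h1 ⊢
  · intro h
    have h1 : (⟨x, y⟩ : GaussianInt).norm = 1 := by
      rw [norm_eq]
      simp only [mem_insert_iff, mem_singleton_iff, Zsqrtd.mk.injEq] at h
      rcases h with ⟨rfl, rfl⟩ | ⟨rfl, rfl⟩ | ⟨rfl, rfl⟩ | ⟨rfl, rfl⟩ <;> norm_num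
    refine ⟨by rw [h1]; norm_num, fun q hq hd => ?_⟩
    obtain ⟨c, hc⟩ := hd
    have h2 := congrArg Zsqrtd.norm hc
    rw [h1, Zsqrtd.norm_mul, norm_natCast'] at h2
    have h3 : (q : ℤ) ∣ 1 := ⟨q * c.norm, by linear_combination h2⟩
    have h4 : q ∣ 1 := by exact_mod_cast h3
    exact hq.one_lt.ne' (Nat.dvd_one.1 h4)

theorem card_PR_one : (PR 1).ncard = 4 := by
  rw [PR_one]
  rw [ncard_insert_of_notMem, ncard_insert_of_notMem, ncard_insert_of_notMem, ncard_singleton]
  · simp
  · simp
  · simp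

/-- **the number of the primitive Gaussian integers of norm `n`** -/
theorem card_PR (n : ℕ) (hn : n ≠ 0) (h : ∀ p ∈ n.primeFactors, p % 4 = 1) :
    (PR n).ncard = 4 * 2 ^ n.primeFactors.card := by
  induction n using Nat.strong_induction_on with
  | _ n ih =>
    rcases Nat.lt_or_ge 1 n with h1 | h1
    · set p := n.minFac with hp
      have hpp : p.Prime := Nat.minFac_prime (by omega)
      have hpn : p ∣ n := Nat.minFac_dvd n
      set e := n.factorization p with he
      set m := n / p ^ e with hm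
      have hdecomp : p ^ e * m = n := Nat.ordProj_mul_ordCompl_eq_self n p
      have hnd : ¬ p ∣ m := Nat.not_dvd_ordCompl hpp hn
      have he1 : 1 ≤ e := by
        rw [he]; exact (hpp.dvd_iff_one_le_factorization hn).mp hpn
      have hm0 : m ≠ 0 := by
        intro h0
        rw [h0, mul_zero] at hdecomp
        exact hn hdecomp.symm
      have hlt : m < n := by
        rw [← hdecomp]
        have : 2 ≤ p ^ e := by
          calc 2 ≤ p := hpp.two_le
            _ = p ^ 1 := (pow_one p).symm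
            _ ≤ p ^ e := Nat.pow_le_pow_right hpp.pos he1
        have := Nat.pos_of_ne_zero hm0
        nlinarith
      have hpf : n.primeFactors = insert p m.primeFactors := by
        rw [← hdecomp, Nat.primeFactors_mul (pow_ne_zero e hpp.ne_zero) hm0,
          Nat.primeFactors_prime_pow (by omega) hpp]
        rfl
      have hpm : p ∉ m.primeFactors := fun h => hnd (Nat.dvd_of_mem_primeFactors h)
      have h4 : p % 4 = 1 := h p (by rw [hpf]; exact Finset.mem_insert_self _ _)
      have h2 := card_step hpp h4 hnd (by omega : e ≠ 0)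
      rw [hdecomp] at h2
      rw [h2, ih m hlt hm0 (fun q hq => h q (by rw [hpf]; exact Finset.mem_insert_of_mem hq)), hpf,
        Finset.card_insert_of_notMem hpm]
      ring
    · have h2 : n = 1 := by omega
      rw [h2, card_PR_one, Nat.primeFactors_one, Finset.card_empty, pow_zero, mul_one]

/-- no primitive elements if a prime `3 mod 4` divides the norm -/
theorem PR_empty {n p : ℕ} (hp : p.Prime) (h3 : p % 4 = 3) (hpn : p ∣ n) : PR n = ∅ := by
  have : Fact p.Prime := ⟨hp⟩
  rw [Set.eq_empty_iff_forall_notMem]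
  rintro z ⟨h1, h2⟩
  have hpr : Prime (p : GaussianInt) := GaussianInt.prime_of_nat_prime_of_mod_four_eq_three p h3
  have h4 : (p : GaussianInt) ∣ z * star z := by
    rw [mul_star_eq, h1]
    obtain ⟨k, rfl⟩ := hpn
    exact ⟨(k : GaussianInt), by push_cast; ring⟩
  rcases hpr.dvd_or_dvd h4 with h | h
  · exact h2 p hp h
  · have h5 := dvd_star h
    rw [star_star, star_natCast] at h5
    exact h2 p hp h5

/-- the primitive elements of odd norm have all prime factors `1 mod 4` -/
theorem pf_of_mem {n : ℕ} (hodd : Odd n) {z : GaussianInt} (hz : z ∈ PR n) :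
    ∀ p ∈ n.primeFactors, p % 4 = 1 := by
  intro p hp
  have hpp := Nat.prime_of_mem_primeFactors hp
  have hpn := Nat.dvd_of_mem_primeFactors hp
  have h2 : p ≠ 2 := by
    rintro rfl
    exact (Nat.not_even_iff_odd.2 hodd) ((even_iff_two_dvd).2 hpn)
  have h1 : Odd p := hpp.odd_of_ne_two h2
  by_contra hc
  have h3 : p % 4 = 3 := by
    have := Nat.odd_iff.1 h1
    omega
  have h4 := PR_empty hpp h3 hpn
  rw [h4] at hz
  exact hz

end Run7.h238.PRep
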