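import Mathlib
import Pool.Agent.Run7.h238.PRep
import Pool.Agent.R413.SQ.CNT

/-!
# Pairs of integers and sets of primes

A pair `v = (a, b)` is `k` times a primitive pair `w`, and the norm of `w` is `g ^ 2` times the product
of a set `S` of primes. If the norm of `w` is odd, all its prime factors are `1 mod 4`, and the number of
the pairs with given `k`, `g`, `S` is `4 * 2 ^ ω(g S)`.
-/

set_option autoImplicit false

open scoped Classical

namespace Run7.h238.Pairs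

open Finset
open Pool.Agent.H383.Gauss (norm_eq)
open Run7.h238.PRep

/-- the norm of a pair -/
def nm (v : ℤ × ℤ) : ℕ := v.1.natAbs ^ 2 + v.2.natAbs ^ 2

/-- the pairs of norm at most `X` -/
noncomputable def Bx (X : ℕ) : Finset (ℤ × ℤ) :=
  ((Icc (-(X : ℤ)) X) ×ˢ (Icc (-(X : ℤ)) X)).filter fun v => nm v ≤ X

theorem mem_Bx {X : ℕ} {v : ℤ × ℤ} : v ∈ Bx X ↔ nm v ≤ X := by
  unfold Bx
  rw [mem_filter, mem_product, mem_Icc, mem_Icc]
  refine ⟨fun h => h.2, fun h => ⟨?_, h⟩⟩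
  unfold nm at h
  have key : ∀ n : ℕ, n ≤ n ^ 2 := fun n => Nat.le_self_pow (by norm_num) n
  have h1 := key v.1.natAbs
  have h2 := key v.2.natAbs
  omega

/-- the gcd of a pair -/
def gc (v : ℤ × ℤ) : ℕ := Int.gcd v.1 v.2

/-- a multiple of a pair -/
def mu (k : ℕ) (w : ℤ × ℤ) : ℤ × ℤ := (k * w.1, k * w.2)

theorem nm_mu (k : ℕ) (w : ℤ × ℤ) : nm (mu k w) = k ^ 2 * nm w := by
  unfold nm mu
  simp only [Int.natAbs_mul, Int.natAbs_natCast]
  ring

theorem gc_mu (k : ℕ) (w : ℤ × ℤ) : gc (mu k w) = k * gc w := by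
  unfold gc mu
  simp only [Int.gcd_mul_left, Int.natAbs_natCast]

theorem mu_inj {k : ℕ} (hk : k ≠ 0) : Function.Injective (mu k) := by
  intro v w h
  unfold mu at h
  simp only [Prod.mk.injEq] at h
  have hk' : (k : ℤ) ≠ 0 := by exact_mod_cast hk
  exact Prod.ext (mul_left_cancel₀ hk' h.1) (mul_left_cancel₀ hk' h.2)

theorem exists_mu {v : ℤ × ℤ} (hv : gc v ≠ 0) : ∃ w, gc w = 1 ∧ mu (gc v) w = v := by
  have h1 : ((gc v : ℕ) : ℤ) ∣ v.1 := Int.gcd_dvd_left _ _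
  have h2 : ((gc v : ℕ) : ℤ) ∣ v.2 := Int.gcd_dvd_right _ _
  obtain ⟨a, ha⟩ := h1
  obtain ⟨b, hb⟩ := h2
  have h3 : mu (gc v) (a, b) = v := Prod.ext ha.symm hb.symm
  refine ⟨(a, b), ?_, h3⟩
  have h4 := gc_mu (gc v) (a, b)
  rw [h3] at h4
  have h5 : gc v * 1 = gc v * gc (a, b) := by rw [mul_one]; exact h4
  exact (Nat.eq_of_mul_eq_mul_left (Nat.pos_of_ne_zero hv) h5).symm

theorem gc_ne {v : ℤ × ℤ} (hv : nm v ≠ 0) : gc v ≠ 0 := by
  intro h
  apply hv
  unfold gc at h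
  rw [Int.gcd_eq_zero_iff] at h
  unfold nm
  rw [h.1, h.2]
  rfl

/-- primitive pairs and primitive Gaussian integers -/
theorem mem_PR {n : ℕ} {w : ℤ × ℤ} : (⟨w.1, w.2⟩ : GaussianInt) ∈ PR n ↔ nm w = n ∧ gc w = 1 := by
  unfold PR
  rw [Set.mem_ofPred_eq, norm_eq]
  simp only
  refine and_congr ?_ ?_
  · have h1 : ((nm w : ℕ) : ℤ) = w.1 ^ 2 + w.2 ^ 2 := by
      unfold nm
      push_cast
      rw [sq_abs, sq_abs]
    rw [← h1]
    exact Nat.cast_inj
  · have key : ∀ q : ℕ, ((q : GaussianInt) ∣ (⟨w.1, w.2⟩ : GaussianInt)) ↔ q ∣ gc w := by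
      intro q
      have h1 := Zsqrtd.intCast_dvd (d := -1) (q : ℤ) ⟨w.1, w.2⟩
      rw [Int.cast_natCast] at h1
      rw [h1]
      unfold gc
      constructor
      · rintro ⟨h2, h3⟩
        exact_mod_cast Int.dvd_coe_gcd h2 h3
      · intro h2
        have h3 : (q : ℤ) ∣ (Int.gcd w.1 w.2 : ℤ) := by exact_mod_cast h2
        exact ⟨h3.trans (Int.gcd_dvd_left _ _), h3.trans (Int.gcd_dvd_right _ _)⟩
    constructor
    · intro h
      by_contra hne
      obtain ⟨q, hq, hd⟩ := Nat.exists_prime_and_dvd hne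
      exact h q hq ((key q).2 hd)
    · intro h q hq hd
      have h2 := (key q).1 hd
      rw [h] at h2
      exact hq.one_lt.ne' (Nat.dvd_one.1 h2)

/-- the number of the primitive pairs of given norm -/
theorem card_prim {n : ℕ} (hn : n ≠ 0) (h : ∀ p ∈ n.primeFactors, p % 4 = 1) :
    ((Bx n).filter fun w => nm w = n ∧ gc w = 1).card = 4 * 2 ^ n.primeFactors.card := by
  rw [← card_PR n hn h, ← Set.ncard_coe_finset]
  refine Set.ncard_congr (fun w _ => (⟨w.1, w.2⟩ : GaussianInt)) ?_ ?_ ?_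
  · intro w hw
    rw [mem_coe, mem_filter] at hw
    exact mem_PR.2 hw.2
  · intro v w _ _ hvw
    simp only [Zsqrtd.mk.injEq] at hvw
    exact Prod.ext hvw.1 hvw.2
  · intro z hz
    refine ⟨(z.re, z.im), ?_, rfl⟩
    have h1 := (mem_PR (n := n) (w := (z.re, z.im))).1 hz
    rw [mem_coe, mem_filter, mem_Bx]
    exact ⟨h1.1.le, h1⟩

/-! ### the squarefree part -/

/-- the primes with odd exponent -/
def oddP (n : ℕ) : Finset ℕ := n.primeFactors.filter fun p => Odd (n.factorization p)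

theorem mem_oddP {n p : ℕ} : p ∈ oddP n ↔ Odd (n.factorization p) := by
  unfold oddP
  rw [mem_filter]
  refine ⟨fun h => h.2, fun h => ⟨?_, h⟩⟩
  rw [← Nat.support_factorization, Finsupp.mem_support_iff]
  intro h0
  rw [h0] at h
  exact absurd h (by decide)

/-- the square part -/
def gg (n : ℕ) : ℕ := Nat.sqrt (n / ∏ p ∈ oddP n, p)

theorem prod_ne {S : Finset ℕ} (hS : ∀ p ∈ S, p.Prime) : ∏ p ∈ S, p ≠ 0 :=
  (prod_pos fun p hp => (hS p hp).pos).ne'

theorem fact_prod {S : Finset ℕ} (hS : ∀ p ∈ S, p.Prime) (p : ℕ) :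
    (∏ q ∈ S, q).factorization p = if p ∈ S then 1 else 0 := by
  rw [Nat.factorization_prod fun q hq => (hS q hq).ne_zero, Finsupp.finsetSum_apply]
  have h1 : ∀ q ∈ S, q.factorization p = if p = q then 1 else 0 := by
    intro q hq
    rw [(hS q hq).factorization, Finsupp.single_apply]
    by_cases h : q = p
    · rw [if_pos h, if_pos h.symm]
    · rw [if_neg h, if_neg fun h' => h h'.symm]
  rw [sum_congr rfl h1, sum_ite_eq]

theorem oddP_eq {g : ℕ} (hg : g ≠ 0) {S : Finset ℕ} (hS : ∀ p ∈ S, p.Prime) :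
    oddP (g ^ 2 * ∏ p ∈ S, p) = S := by
  ext p
  rw [mem_oddP, Nat.factorization_mul (pow_ne_zero 2 hg) (prod_ne hS), Nat.factorization_pow,
    Finsupp.add_apply, Finsupp.smul_apply, fact_prod hS, smul_eq_mul]
  split_ifs with h
  · exact iff_of_true (by rw [Nat.odd_iff]; omega) h
  · refine iff_of_false ?_ h
    rw [Nat.odd_iff]
    omega

theorem gg_eq {g : ℕ} (hg : g ≠ 0) {S : Finset ℕ} (hS : ∀ p ∈ S, p.Prime) :
    gg (g ^ 2 * ∏ p ∈ S, p) = g := by
  unfold gg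
  rw [oddP_eq hg hS, Nat.mul_div_cancel _ (Nat.pos_of_ne_zero (prod_ne hS)), pow_two, Nat.sqrt_eq]

theorem exists_gS {n : ℕ} (hn : n ≠ 0) : ∃ (g : ℕ) (S : Finset ℕ), g ≠ 0 ∧ (∀ p ∈ S, p.Prime) ∧
    n = g ^ 2 * ∏ p ∈ S, p := by
  obtain ⟨a, b, hab, ha⟩ := Nat.sq_mul_squarefree n
  refine ⟨b, a.primeFactors, ?_, fun p hp => Nat.prime_of_mem_primeFactors hp, ?_⟩
  · rintro rfl
    rw [zero_pow (by norm_num), zero_mul] at hab
    exact hn hab.symm
  · rw [Nat.prod_primeFactors_of_squarefree ha]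
    exact hab.symm

theorem prime_oddP {n p : ℕ} (h : p ∈ oddP n) : p.Prime :=
  Nat.prime_of_mem_primeFactors (mem_filter.1 h).1

theorem decomp {n : ℕ} (hn : n ≠ 0) : gg n ≠ 0 ∧ n = gg n ^ 2 * ∏ p ∈ oddP n, p := by
  obtain ⟨g, S, hg, hS, rfl⟩ := exists_gS hn
  rw [gg_eq hg hS, oddP_eq hg hS]
  exact ⟨hg, rfl⟩

theorem oddP_sq {k n : ℕ} (hk : k ≠ 0) (hn : n ≠ 0) : oddP (k ^ 2 * n) = oddP n := by
  ext p
  rw [mem_oddP, mem_oddP, Nat.factorization_mul (pow_ne_zero 2 hk) hn, Nat.factorization_pow,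
    Finsupp.add_apply, Finsupp.smul_apply, smul_eq_mul, Nat.odd_iff, Nat.odd_iff]
  omega

theorem pf_eq {g : ℕ} (hg : g ≠ 0) {S : Finset ℕ} (hS : ∀ p ∈ S, p.Prime) :
    (g ^ 2 * ∏ p ∈ S, p).primeFactors = S ∪ g.primeFactors := by
  rw [Nat.primeFactors_mul (pow_ne_zero 2 hg) (prod_ne hS), Nat.primeFactors_pow _ (by norm_num),
    Nat.primeFactors_prod hS, union_comm]

/-- a primitive pair of even norm has norm `2 mod 4` -/
theorem even_prim {w : ℤ × ℤ} (hw : gc w = 1) (h : 2 ∣ nm w) : 2 ∈ oddP (nm w) := by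
  have h4 : ¬ 4 ∣ nm w := by
    intro h4
    have h2 : w.1.natAbs % 2 = 0 ∧ w.2.natAbs % 2 = 0 := by
      unfold nm at h4
      have k1 : w.1.natAbs % 4 = 0 ∨ w.1.natAbs % 4 = 1 ∨ w.1.natAbs % 4 = 2 ∨
        w.1.natAbs % 4 = 3 := by omega
      have k2 : w.2.natAbs % 4 = 0 ∨ w.2.natAbs % 4 = 1 ∨ w.2.natAbs % 4 = 2 ∨
        w.2.natAbs % 4 = 3 := by omega
      have k3 : (w.1.natAbs ^ 2 + w.2.natAbs ^ 2) % 4 = 0 := Nat.mod_eq_zero_of_dvd h4
      rw [Nat.add_mod, Nat.pow_mod, Nat.pow_mod w.2.natAbs] at k3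
      rcases k1 with k1 | k1 | k1 | k1 <;> rcases k2 with k2 | k2 | k2 | k2 <;>
        rw [k1, k2] at k3 <;> norm_num at k3 <;> omega
    have h3 : (2 : ℕ) ∣ gc w := by
      unfold gc
      have a1 : ((2 : ℕ) : ℤ) ∣ w.1 := by
        rw [Int.natCast_dvd]
        exact Nat.dvd_of_mod_eq_zero h2.1
      have a2 : ((2 : ℕ) : ℤ) ∣ w.2 := by
        rw [Int.natCast_dvd]
        exact Nat.dvd_of_mod_eq_zero h2.2
      exact_mod_cast Int.dvd_coe_gcd a1 a2
    rw [hw] at h3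
    omega
  have h0 : nm w ≠ 0 := by
    intro h0
    rw [h0] at h4
    exact h4 (dvd_zero 4)
  rw [mem_oddP]
  have h1 : (nm w).factorization 2 = 1 := by
    have h5 : 1 ≤ (nm w).factorization 2 :=
      (Nat.prime_two.dvd_iff_one_le_factorization h0).1 h
    have h6 : ¬ 2 ≤ (nm w).factorization 2 := by
      intro h6
      apply h4
      have := (Nat.prime_two.pow_dvd_iff_le_factorization h0).2 h6
      exact this
    omega
  rw [h1]
  exact odd_one

end Run7.h238.Pairs
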