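import Pool.Agent.Run7.h238.Pairs

/-!
# The sum over the pairs as a sum over sets of primes
-/

set_option autoImplicit false

open scoped Classical

namespace Run7.h238.Pairs

open Finset
open Pool.Agent.R413.SQ (SS Cl Sp In pr1 of_pr1)
open Run7.h238.PRep

/-- the nonzero pairs such that the squarefree part of the norm is odd -/
noncomputable def CX (X : ℕ) : Finset (ℤ × ℤ) :=
  (Bx X).filter fun v => nm v ≠ 0 ∧ 2 ∉ oddP (nm v)

/-- all the prime factors are `1 mod 4` -/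
def N1 (g : ℕ) : Prop := ∀ p ∈ g.primeFactors, p % 4 = 1

/-- the invariants of a pair -/
def ga (v : ℤ × ℤ) : ℕ := gg (nm v / gc v ^ 2)

theorem mem_SS {X : ℕ} {S : Finset ℕ} : S ∈ SS ∅ ∅ X ↔
    (∀ p ∈ S, p.Prime ∧ p % 4 = 1) ∧ ∏ p ∈ S, p ≤ X := by
  constructor
  · intro h
    unfold SS at h
    rw [mem_filter] at h
    exact ⟨fun p hp => pr1 (h.2.1 p hp), h.2.2⟩
  · rintro ⟨h1, h2⟩
    unfold SS
    rw [mem_filter, mem_powerset]
    refine ⟨fun p hp => ?_, fun p hp => of_pr1 _ (h1 p hp).1 (h1 p hp).2, h2⟩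
    rw [mem_range]
    have h3 := Nat.le_of_dvd (prod_pos fun p hp => (h1 p hp).1.pos) (dvd_prod_of_mem (fun p => p) hp)
    omega

/-- the data of a pair of the class -/
theorem data {v : ℤ × ℤ} (h0 : nm v ≠ 0) (h2 : 2 ∉ oddP (nm v)) :
    ∃ w, gc w = 1 ∧ mu (gc v) w = v ∧ nm w = ga v ^ 2 * ∏ p ∈ oddP (nm v), p ∧ ga v ≠ 0 ∧
      N1 (ga v) ∧ ∀ p ∈ oddP (nm v), p.Prime ∧ p % 4 = 1 := by
  have hk := gc_ne h0
  obtain ⟨w, hw, hmu⟩ := exists_mu hk
  have h1 : nm v = gc v ^ 2 * nm w := by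
    rw [← nm_mu, hmu]
  have hw0 : nm w ≠ 0 := by
    intro h
    rw [h, mul_zero] at h1
    exact h0 h1
  have h3 : oddP (nm v) = oddP (nm w) := by rw [h1, oddP_sq hk hw0]
  have h4 : nm v / gc v ^ 2 = nm w := by
    rw [h1]
    exact Nat.mul_div_cancel_left _ (by positivity)
  have h5 : ga v = gg (nm w) := by
    unfold ga
    rw [h4]
  obtain ⟨h6, h7⟩ := decomp hw0
  have hodd : Odd (nm w) := by
    rw [Nat.odd_iff]
    by_contra hc
    apply h2
    rw [h3]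
    exact even_prim hw (Nat.dvd_of_mod_eq_zero (by omega))
  have h8 : ∀ p ∈ (nm w).primeFactors, p % 4 = 1 :=
    pf_of_mem hodd (z := ⟨w.1, w.2⟩) (mem_PR.2 ⟨rfl, hw⟩)
  refine ⟨w, hw, hmu, ?_, ?_, ?_, ?_⟩
  · rw [h5, h3]
    exact h7
  · rw [h5]
    exact h6
  · intro p hp
    rw [h5] at hp
    apply h8
    have h9 : (nm w).primeFactors = oddP (nm w) ∪ (gg (nm w)).primeFactors := by
      conv_lhs => rw [h7]
      exact pf_eq h6 fun p hp => prime_oddP hp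
    rw [h9]
    exact mem_union_right _ hp
  · intro p hp
    rw [h3] at hp
    exact ⟨prime_oddP hp, h8 p (mem_filter.1 hp).1⟩

/-- the number of the pairs with given invariants -/
theorem card_fiber {X k g : ℕ} (hk : k ≠ 0) (hg : g ≠ 0) (hN : N1 g) {S : Finset ℕ}
    (hS : ∀ p ∈ S, p.Prime ∧ p % 4 = 1) (hX : k ^ 2 * g ^ 2 * ∏ p ∈ S, p ≤ X) :
    ((CX X).filter fun v => (gc v = k ∧ ga v = g) ∧ oddP (nm v) = S).card =
      4 * 2 ^ (S ∪ g.primeFactors).card := by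
  have hSp : ∀ p ∈ S, p.Prime := fun p hp => (hS p hp).1
  set n := g ^ 2 * ∏ p ∈ S, p with hn
  have hn0 : n ≠ 0 := mul_ne_zero (pow_ne_zero 2 hg) (prod_ne hSp)
  have hpf : n.primeFactors = S ∪ g.primeFactors := pf_eq hg hSp
  rw [← hpf, ← card_prim hn0 (by
    intro p hp
    rw [hpf, mem_union] at hp
    rcases hp with h | h
    · exact (hS p h).2
    · exact hN p h)]
  symm
  refine card_bij (fun w _ => mu k w) ?_ ?_ ?_
  · intro w hw
    rw [mem_filter] at hw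
    obtain ⟨-, h1, h2⟩ := hw
    have h3 : nm (mu k w) = k ^ 2 * n := by rw [nm_mu, h1]
    have h4 : gc (mu k w) = k := by rw [gc_mu, h2, mul_one]
    have h5 : oddP (nm (mu k w)) = S := by rw [h3, oddP_sq hk hn0, hn, oddP_eq hg hSp]
    rw [mem_filter]
    unfold CX
    rw [mem_filter, mem_Bx]
    refine ⟨⟨?_, ?_, ?_⟩, ⟨h4, ?_⟩, h5⟩
    · rw [h3, hn, ← mul_assoc]
      exact hX
    · rw [h3]
      exact mul_ne_zero (pow_ne_zero 2 hk) hn0
    · rw [h5]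
      intro h6
      have := (hS 2 h6).2
      omega
    · unfold ga
      rw [h4, h3, Nat.mul_div_cancel_left _ (by positivity), hn, gg_eq hg hSp]
  · intro v _ w _ h
    exact mu_inj hk h
  · intro v hv
    rw [mem_filter] at hv
    unfold CX at hv
    rw [mem_filter] at hv
    obtain ⟨⟨-, h0, h2⟩, ⟨h3, h4⟩, h5⟩ := hv
    obtain ⟨w, h6, h7, h8, -⟩ := data h0 h2
    rw [h3] at h7
    refine ⟨w, ?_, h7⟩
    rw [mem_filter, mem_Bx]
    have h9 : nm w = n := by rw [h8, h4, h5]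
    exact ⟨h9.le, h9, h6⟩

/-- **the sum over the pairs** -/
theorem sum_pairs (F : Finset ℕ → ℝ) (X : ℕ) :
    ∑ v ∈ CX X, F (oddP (nm v)) =
      ∑ e ∈ (Icc 1 X) ×ˢ ((Icc 1 X).filter N1), 4 * ∑ S ∈ SS ∅ ∅ (X / (e.1 ^ 2 * e.2 ^ 2)),
        2 ^ (S ∪ e.2.primeFactors).card * F S := by
  have hbound : ∀ v ∈ CX X, gc v ^ 2 * ga v ^ 2 * ∏ p ∈ oddP (nm v), p ≤ X := by
    intro v hv
    unfold CX at hv
    rw [mem_filter, mem_Bx] at hv
    obtain ⟨h1, h0, h2⟩ := hv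
    obtain ⟨w, -, h4, h5, -⟩ := data h0 h2
    have h6 : nm v = gc v ^ 2 * (ga v ^ 2 * ∏ p ∈ oddP (nm v), p) := by
      rw [← h5, ← nm_mu, h4]
    rw [← mul_assoc] at h6
    omega
  have hmaps : ∀ v ∈ CX X, (gc v, ga v) ∈ (Icc 1 X) ×ˢ ((Icc 1 X).filter N1) := by
    intro v hv
    have h3 := hbound v hv
    unfold CX at hv
    rw [mem_filter, mem_Bx] at hv
    obtain ⟨h1, h0, h2⟩ := hv
    obtain ⟨w, -, h4, h5, h6, h7, h8⟩ := data h0 h2
    have hk := Nat.pos_of_ne_zero (gc_ne h0)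
    have hg := Nat.pos_of_ne_zero h6
    have hP : 0 < ∏ p ∈ oddP (nm v), p := prod_pos fun p hp => (h8 p hp).1.pos
    rw [mem_product, mem_filter, mem_Icc, mem_Icc]
    have hle : gc v * ga v ≤ gc v ^ 2 * ga v ^ 2 := by
      rw [← mul_pow]
      exact Nat.le_self_pow (by norm_num) _
    have hle2 : gc v ^ 2 * ga v ^ 2 ≤ gc v ^ 2 * ga v ^ 2 * ∏ p ∈ oddP (nm v), p :=
      Nat.le_mul_of_pos_right _ hP
    have hle3 : gc v ≤ gc v * ga v := Nat.le_mul_of_pos_right _ hg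
    have hle4 : ga v ≤ gc v * ga v := Nat.le_mul_of_pos_left _ hk
    refine ⟨⟨hk, ?_⟩, ⟨hg, ?_⟩, h7⟩
    · simp only
      omega
    · simp only
      omega
  rw [← sum_fiberwise_of_maps_to hmaps]
  refine sum_congr rfl fun e he => ?_
  obtain ⟨k, g⟩ := e
  rw [mem_product, mem_filter, mem_Icc, mem_Icc] at he
  obtain ⟨⟨hk1, -⟩, ⟨hg1, -⟩, hN⟩ := he
  simp only at hk1 hg1 hN ⊢
  have hk : k ≠ 0 := by omega
  have hg : g ≠ 0 := by omega
  have hkg : 0 < k ^ 2 * g ^ 2 := by positivity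
  have hmaps2 : ∀ v ∈ (CX X).filter (fun v => (gc v, ga v) = (k, g)),
      oddP (nm v) ∈ SS ∅ ∅ (X / (k ^ 2 * g ^ 2)) := by
    intro v hv
    rw [mem_filter, Prod.mk.injEq] at hv
    obtain ⟨hv, h3, h4⟩ := hv
    have h5 := hbound v hv
    unfold CX at hv
    rw [mem_filter, mem_Bx] at hv
    obtain ⟨h1, h0, h2⟩ := hv
    obtain ⟨w, -, -, -, -, -, h8⟩ := data h0 h2
    rw [mem_SS]
    refine ⟨h8, ?_⟩
    rw [Nat.le_div_iff_mul_le hkg, mul_comm, ← h3, ← h4]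
    exact h5
  rw [← sum_fiberwise_of_maps_to hmaps2, mul_sum]
  refine sum_congr rfl fun S hS => ?_
  rw [mem_SS] at hS
  have h1 : ∀ v ∈ ((CX X).filter (fun v => (gc v, ga v) = (k, g))).filter
      (fun v => oddP (nm v) = S), F (oddP (nm v)) = F S := by
    intro v hv
    rw [(mem_filter.1 hv).2]
  rw [sum_congr rfl h1, sum_const, nsmul_eq_mul]
  have h2 : ((CX X).filter (fun v => (gc v, ga v) = (k, g))).filter (fun v => oddP (nm v) = S) =
      (CX X).filter fun v => (gc v = k ∧ ga v = g) ∧ oddP (nm v) = S := by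
    rw [filter_filter]
    refine filter_congr fun v _ => ?_
    rw [Prod.mk.injEq]
  have hX : k ^ 2 * g ^ 2 * ∏ p ∈ S, p ≤ X := by
    have := hS.2
    rw [Nat.le_div_iff_mul_le hkg] at this
    rw [mul_comm]
    exact this
  rw [h2, card_fiber hk hg hN hS.1 hX]
  push_cast
  ring

end Run7.h238.Pairs
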