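import Pool.Agent.Run7.h238.Pairs2

/-!
# The number of the pairs of norm at most `X`
-/

set_option autoImplicit false

open scoped Classical

namespace Run7.h238.Disc

open Finset Filter MeasureTheory
open scoped Pointwise
open Run7.h238.Pairs

/-- the unit disc -/
def dsc : Set (Fin 2 → ℝ) := {x | x 0 ^ 2 + x 1 ^ 2 ≤ 1}

theorem dsc_closed : IsClosed dsc := by
  unfold dsc
  exact isClosed_le (by fun_prop) continuous_const

theorem dsc_bdd : Bornology.IsBounded dsc := by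
  refine (Metric.isBounded_closedBall (x := (0 : Fin 2 → ℝ)) (r := 1)).subset ?_
  intro x hx
  have hx' : x 0 ^ 2 + x 1 ^ 2 ≤ 1 := hx
  rw [mem_closedBall_zero_iff, pi_norm_le_iff_of_nonneg zero_le_one]
  intro i
  rw [Real.norm_eq_abs]
  have h0 : |x 0| ≤ 1 := abs_le_one_iff_mul_self_le_one.2 (by nlinarith [sq_nonneg (x 1)])
  have h1 : |x 1| ≤ 1 := abs_le_one_iff_mul_self_le_one.2 (by nlinarith [sq_nonneg (x 0)])
  fin_cases i
  · exact h0
  · exact h1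

theorem dsc_convex : Convex ℝ dsc := by
  intro x hx y hy a b ha hb hab
  have hx' : x 0 ^ 2 + x 1 ^ 2 ≤ 1 := hx
  have hy' : y 0 ^ 2 + y 1 ^ 2 ≤ 1 := hy
  show (a • x + b • y) 0 ^ 2 + (a • x + b • y) 1 ^ 2 ≤ 1
  simp only [Pi.add_apply, Pi.smul_apply, smul_eq_mul]
  have hb' : b = 1 - a := by linarith
  subst hb'
  have h1 : 0 ≤ a * (1 - a) * ((x 0 - y 0) ^ 2 + (x 1 - y 1) ^ 2) := by positivity
  nlinarith

theorem dsc_frontier : volume (frontier dsc) = 0 := dsc_convex.addHaar_frontier volume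

theorem dsc_ball : Metric.ball (0 : Fin 2 → ℝ) (1 / 2) ⊆ dsc := by
  intro x hx
  rw [mem_ball_zero_iff, pi_norm_lt_iff (by norm_num)] at hx
  have h0 := hx 0
  have h1 := hx 1
  rw [Real.norm_eq_abs, abs_lt] at h0 h1
  show x 0 ^ 2 + x 1 ^ 2 ≤ 1
  nlinarith

/-- the area -/
noncomputable def ar : ℝ := volume.real dsc

theorem ar_pos : 0 < ar := by
  unfold ar
  have h1 : 0 < volume (Metric.ball (0 : Fin 2 → ℝ) (1 / 2)) :=
    Metric.measure_ball_pos volume _ (by norm_num)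
  have h2 : 0 < volume dsc := h1.trans_le (measure_mono dsc_ball)
  exact ENNReal.toReal_pos h2.ne' dsc_bdd.measure_lt_top.ne

theorem dsc_mono ⦃x y : ℝ⦄ (hx : 0 < x) (hxy : x ≤ y) : x • dsc ⊆ y • dsc := by
  rintro _ ⟨v, hv, rfl⟩
  have hy : 0 < y := hx.trans_le hxy
  have hv' : v 0 ^ 2 + v 1 ^ 2 ≤ 1 := hv
  refine ⟨(x / y) • v, ?_, ?_⟩
  · show ((x / y) • v) 0 ^ 2 + ((x / y) • v) 1 ^ 2 ≤ 1
    simp only [Pi.smul_apply, smul_eq_mul]
    have h1 : (x / y) ^ 2 ≤ 1 := by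
      have h2 : x / y ≤ 1 := (div_le_one hy).2 hxy
      have h3 : 0 ≤ x / y := by positivity
      nlinarith
    have h4 : 0 ≤ v 0 ^ 2 + v 1 ^ 2 := by positivity
    calc (x / y * v 0) ^ 2 + (x / y * v 1) ^ 2 = (x / y) ^ 2 * (v 0 ^ 2 + v 1 ^ 2) := by ring
      _ ≤ 1 * 1 := mul_le_mul h1 hv' h4 zero_le_one
      _ = 1 := one_mul 1
  · simp only [smul_smul]
    rw [mul_div_cancel₀ _ hy.ne']

/-- the points of the lattice -/
theorem card_eq {X : ℕ} (hX : 1 ≤ X) :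
    Nat.card ↑(dsc ∩ (Real.sqrt X)⁻¹ • (Submodule.span ℤ (Set.range (Pi.basisFun ℝ (Fin 2))) :
      Set (Fin 2 → ℝ))) = (Bx X).card := by
  have hX0 : (0 : ℝ) < X := by exact_mod_cast hX
  have hs : 0 < Real.sqrt X := Real.sqrt_pos.2 hX0
  have hsq : Real.sqrt X ^ 2 = X := Real.sq_sqrt hX0.le
  have hnm : ∀ v : ℤ × ℤ, ((nm v : ℕ) : ℝ) = (v.1 : ℝ) ^ 2 + (v.2 : ℝ) ^ 2 := by
    intro v
    have h1 : ((nm v : ℕ) : ℤ) = v.1 ^ 2 + v.2 ^ 2 := by
      unfold nm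
      push_cast
      rw [sq_abs, sq_abs]
    exact_mod_cast congrArg (fun z : ℤ => (z : ℝ)) h1
  rw [Nat.card_coe_set_eq, ← Set.ncard_coe_finset]
  symm
  refine Set.ncard_congr (fun v _ => (Real.sqrt X)⁻¹ • ![(v.1 : ℝ), (v.2 : ℝ)]) ?_ ?_ ?_
  · intro v hv
    rw [mem_coe, mem_Bx] at hv
    refine ⟨?_, ?_⟩
    · show ((Real.sqrt X)⁻¹ • ![(v.1 : ℝ), (v.2 : ℝ)]) 0 ^ 2 +
        ((Real.sqrt X)⁻¹ • ![(v.1 : ℝ), (v.2 : ℝ)]) 1 ^ 2 ≤ 1
      simp only [Pi.smul_apply, smul_eq_mul, Matrix.cons_val_zero, Matrix.cons_val_one]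
      have h1 : ((nm v : ℕ) : ℝ) ≤ X := by exact_mod_cast hv
      rw [hnm] at h1
      rw [mul_pow, mul_pow, ← mul_add, inv_pow, hsq, inv_mul_le_iff₀ hX0, mul_one]
      exact h1
    · rw [Set.smul_mem_smul_set_iff₀ (inv_ne_zero hs.ne')]
      rw [SetLike.mem_coe, Module.Basis.mem_span_iff_repr_mem]
      intro i
      fin_cases i
      · exact ⟨v.1, by simp⟩
      · exact ⟨v.2, by simp⟩
  · intro v w _ _ h
    have h1 := smul_right_injective (Fin 2 → ℝ) (inv_ne_zero hs.ne') h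
    have h2 := congrFun h1 0
    have h3 := congrFun h1 1
    simp only [Matrix.cons_val_zero, Matrix.cons_val_one] at h2 h3
    exact Prod.ext (by exact_mod_cast h2) (by exact_mod_cast h3)
  · rintro x ⟨hx, hL⟩
    obtain ⟨y, hy, rfl⟩ := hL
    rw [SetLike.mem_coe, Module.Basis.mem_span_iff_repr_mem] at hy
    obtain ⟨a, ha⟩ := hy 0
    obtain ⟨b, hb⟩ := hy 1
    simp only [Pi.basisFun_repr] at ha hb
    have ha' : y 0 = (a : ℝ) := by rw [← ha]; rfl
    have hb' : y 1 = (b : ℝ) := by rw [← hb]; rfl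
    refine ⟨(a, b), ?_, ?_⟩
    · rw [mem_coe, mem_Bx]
      have hx' : ((Real.sqrt X)⁻¹ • y) 0 ^ 2 + ((Real.sqrt X)⁻¹ • y) 1 ^ 2 ≤ 1 := hx
      simp only [Pi.smul_apply, smul_eq_mul] at hx'
      rw [mul_pow, mul_pow, ← mul_add, inv_pow, hsq, inv_mul_le_iff₀ hX0, mul_one, ha', hb'] at hx'
      have h1 := hnm (a, b)
      simp only at h1
      rw [← h1] at hx'
      exact_mod_cast hx'
    · simp only
      congr 1
      funext i
      fin_cases i
      · exact ha'.symm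
      · exact hb'.symm

/-- **the number of the pairs** -/
theorem card_tendsto : Tendsto (fun X : ℕ => ((Bx X).card : ℝ) / X) atTop (nhds ar) := by
  have h := tendsto_card_div_pow_atTop_volume' dsc dsc_bdd dsc_closed.measurableSet dsc_frontier
    dsc_mono
  have h2 : Tendsto (fun X : ℕ => Real.sqrt X) atTop atTop :=
    Real.tendsto_sqrt_atTop.comp tendsto_natCast_atTop_atTop
  refine (h.comp h2).congr' ?_
  filter_upwards [eventually_ge_atTop 1] with X hX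
  simp only [Function.comp]
  rw [card_eq hX, Fintype.card_fin, Real.sq_sqrt (Nat.cast_nonneg X)]

end Run7.h238.Disc
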