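import Pool.Agent.Run7.h238.Disc

/-!
# Two thirds of the pairs are in the class

The multiplication by `1 + i` maps the class onto the complement.
-/

set_option autoImplicit false

open scoped Classical

namespace Run7.h238.Half

open Finset Filter
open Run7.h238.Pairs Run7.h238.Disc

theorem nm_int (v : ℤ × ℤ) : ((nm v : ℕ) : ℤ) = v.1 ^ 2 + v.2 ^ 2 := by
  unfold nm
  push_cast
  rw [sq_abs, sq_abs]

/-- multiplication by `1 + i` -/
def rho (v : ℤ × ℤ) : ℤ × ℤ := (v.1 - v.2, v.1 + v.2)

theorem nm_rho (v : ℤ × ℤ) : nm (rho v) = 2 * nm v := by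
  have h1 := nm_int (rho v)
  have h2 := nm_int v
  have h3 : ((nm (rho v) : ℕ) : ℤ) = ((2 * nm v : ℕ) : ℤ) := by
    push_cast
    rw [h1, h2]
    unfold rho
    ring
  exact_mod_cast h3

theorem rho_inj : Function.Injective rho := by
  intro v w h
  unfold rho at h
  simp only [Prod.mk.injEq] at h
  exact Prod.ext (by omega) (by omega)

theorem two_oddP {n : ℕ} (hn : n ≠ 0) : 2 ∈ oddP (2 * n) ↔ 2 ∉ oddP n := by
  rw [mem_oddP, mem_oddP, Nat.factorization_mul two_ne_zero hn, Finsupp.add_apply,
    Nat.prime_two.factorization_self, Nat.odd_iff, Nat.odd_iff]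
  omega

theorem even_of {n : ℕ} (h : 2 ∈ oddP n) : n % 2 = 0 :=
  Nat.mod_eq_zero_of_dvd (Nat.dvd_of_mem_primeFactors (mem_filter.1 h).1)

/-- the number of the pairs -/
theorem rel (X : ℕ) : (CX X).card + (CX (X / 2)).card + 1 = (Bx X).card := by
  have e1 : (Bx X).filter (fun v => nm v = 0) = {(0, 0)} := by
    ext v
    rw [mem_filter, mem_Bx, mem_singleton]
    constructor
    · rintro ⟨-, h⟩
      unfold nm at h
      have h1 : v.1.natAbs = 0 := by
        by_contra hc
        have := Nat.pos_of_ne_zero hc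
        have : 0 < v.1.natAbs ^ 2 := by positivity
        omega
      have h2 : v.2.natAbs = 0 := by
        by_contra hc
        have := Nat.pos_of_ne_zero hc
        have : 0 < v.2.natAbs ^ 2 := by positivity
        omega
      exact Prod.ext (Int.natAbs_eq_zero.1 h1) (Int.natAbs_eq_zero.1 h2)
    · rintro rfl
      exact ⟨Nat.zero_le _, rfl⟩
  have e2 : (CX (X / 2)).card = ((Bx X).filter fun v => nm v ≠ 0 ∧ 2 ∈ oddP (nm v)).card := by
    refine card_bij (fun v _ => rho v) ?_ (fun v _ w _ h => rho_inj h) ?_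
    · intro v hv
      unfold CX at hv
      rw [mem_filter, mem_Bx] at hv
      obtain ⟨h1, h2, h3⟩ := hv
      rw [mem_filter, mem_Bx, nm_rho]
      exact ⟨by omega, by omega, (two_oddP h2).2 h3⟩
    · intro v hv
      rw [mem_filter, mem_Bx] at hv
      obtain ⟨h1, h2, h3⟩ := hv
      have h4 := even_of h3
      have h5 : (v.1 + v.2) % 2 = 0 := by
        have h6 := nm_int v
        have h7 : ((nm v : ℕ) : ℤ) % 2 = 0 := by omega
        rw [h6] at h7
        rcases Int.emod_two_eq_zero_or_one v.1 with k1 | k1 <;>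
          rcases Int.emod_two_eq_zero_or_one v.2 with k2 | k2 <;>
          simp [Int.add_emod, pow_two, Int.mul_emod, k1, k2] at h7 ⊢
      refine ⟨((v.1 + v.2) / 2, (v.2 - v.1) / 2), ?_, ?_⟩
      · have h8 : rho ((v.1 + v.2) / 2, (v.2 - v.1) / 2) = v := by
          unfold rho
          exact Prod.ext (by simp only; omega) (by simp only; omega)
        have h9 := nm_rho ((v.1 + v.2) / 2, (v.2 - v.1) / 2)
        rw [h8] at h9
        have h10 : nm ((v.1 + v.2) / 2, (v.2 - v.1) / 2) ≠ 0 := by omega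
        unfold CX
        rw [mem_filter, mem_Bx]
        refine ⟨by omega, h10, ?_⟩
        rw [← two_oddP h10, ← h9]
        exact h3
      · unfold rho
        exact Prod.ext (by simp only; omega) (by simp only; omega)
  have e3 : (Bx X).card = ((Bx X).filter fun v => nm v = 0).card +
      ((Bx X).filter fun v => ¬ nm v = 0).card := (card_filter_add_card_filter_not _).symm
  have e4 : ((Bx X).filter fun v => ¬ nm v = 0).card =
      ((Bx X).filter fun v => nm v ≠ 0 ∧ 2 ∈ oddP (nm v)).card +
      ((Bx X).filter fun v => nm v ≠ 0 ∧ 2 ∉ oddP (nm v)).card := by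
    rw [← card_filter_add_card_filter_not (s := (Bx X).filter fun v => ¬ nm v = 0)
      (fun v => 2 ∈ oddP (nm v)), filter_filter, filter_filter]
  rw [e1, card_singleton] at e3
  unfold CX at e2 ⊢
  omega

/-- the deviation -/
noncomputable def de (X : ℕ) : ℝ := ((CX X).card : ℝ) - 2 / 3 * ar * X

theorem step (X : ℕ) : |de X| ≤ |de (X / 2)| + |((Bx X).card : ℝ) - ar * X| + (1 + ar) := by
  have h1 : ((CX X).card : ℝ) + (CX (X / 2)).card + 1 = (Bx X).card := by exact_mod_cast rel X
  have h2 : (X : ℝ) = 2 * ((X / 2 : ℕ) : ℝ) + ((X % 2 : ℕ) : ℝ) := by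
    exact_mod_cast (Nat.div_add_mod X 2).symm
  have h3 : ((X % 2 : ℕ) : ℝ) ≤ 1 := by
    have : X % 2 ≤ 1 := by omega
    exact_mod_cast this
  have h3' : (0 : ℝ) ≤ ((X % 2 : ℕ) : ℝ) := Nat.cast_nonneg _
  have har := ar_pos
  have e : de X = -de (X / 2) + (((Bx X).card : ℝ) - ar * X) +
      (1 / 3 * ar * ((X % 2 : ℕ) : ℝ) - 1) := by
    unfold de
    rw [← h1]
    generalize ((X / 2 : ℕ) : ℝ) = u at *
    rw [h2]
    ring
  rw [e]
  refine (abs_add_le _ _).trans (add_le_add ((abs_add_le _ _).trans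
    (add_le_add (le_of_eq (abs_neg _)) le_rfl)) ?_)
  rw [abs_le]
  have h4 : ar * ((X % 2 : ℕ) : ℝ) ≤ ar * 1 := mul_le_mul_of_nonneg_left h3 har.le
  have h5 : 0 ≤ ar * ((X % 2 : ℕ) : ℝ) := mul_nonneg har.le h3'
  constructor <;> linarith

theorem de_le {ε K : ℝ} (hε : 0 ≤ ε) (hK : 0 ≤ K)
    (h : ∀ X : ℕ, |((Bx X).card : ℝ) - ar * X| + (1 + ar) ≤ ε * X + K) (X : ℕ) :
    |de X| ≤ 2 * ε * X + 4 * K * Real.sqrt X := by
  induction X using Nat.strong_induction_on with
  | _ X ih =>
    rcases Nat.eq_zero_or_pos X with h0 | h0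
    · subst h0
      have h1 : (CX 0).card = 0 := by
        rw [card_eq_zero]
        unfold CX
        rw [filter_eq_empty_iff]
        intro v hv
        rw [mem_Bx] at hv
        omega
      unfold de
      rw [h1]
      simp
    · have h1 := ih (X / 2) (Nat.div_lt_self h0 one_lt_two)
      have h2 := step X
      have h3 := h X
      have h4 : ((X / 2 : ℕ) : ℝ) ≤ X / 2 := by
        refine Nat.cast_div_le.trans (le_of_eq ?_)
        norm_num
      have hX1 : (1 : ℝ) ≤ X := by exact_mod_cast h0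
      have h5 : Real.sqrt ((X / 2 : ℕ) : ℝ) ≤ 3 / 4 * Real.sqrt X := by
        rw [Real.sqrt_le_left (by positivity), mul_pow, Real.sq_sqrt (by linarith)]
        linarith
      have h6 : 1 ≤ Real.sqrt X := by
        rw [Real.one_le_sqrt]
        exact hX1
      have h7 : 2 * ε * ((X / 2 : ℕ) : ℝ) ≤ ε * X := by nlinarith
      have h8 : 4 * K * Real.sqrt ((X / 2 : ℕ) : ℝ) ≤ 3 * (K * Real.sqrt X) := by nlinarith
      have h9 : K ≤ K * Real.sqrt X := by nlinarith
      linarith

/-- **two thirds of the pairs** -/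
theorem CX_tendsto : Tendsto (fun X : ℕ => ((CX X).card : ℝ) / X) atTop (nhds (2 / 3 * ar)) := by
  rw [Metric.tendsto_nhds]
  intro ε hε
  have h1 := Metric.tendsto_nhds.1 card_tendsto (ε / 4) (by positivity)
  rw [eventually_atTop] at h1
  obtain ⟨X₀, hX₀⟩ := h1
  have har := ar_pos
  set K : ℝ := ((Bx X₀).card : ℝ) + ar * X₀ + (1 + ar) with hK
  have hK0 : 0 ≤ K := by positivity
  have h2 : ∀ X : ℕ, |((Bx X).card : ℝ) - ar * X| + (1 + ar) ≤ ε / 4 * X + K := by
    intro X
    rcases Nat.lt_or_ge X X₀ with h | h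
    · have h3 : ((Bx X).card : ℝ) ≤ (Bx X₀).card := by
        have : (Bx X).card ≤ (Bx X₀).card := by
          refine card_le_card fun v hv => ?_
          rw [mem_Bx] at hv ⊢
          omega
        exact_mod_cast this
      have h4 : ar * X ≤ ar * X₀ := by
        refine mul_le_mul_of_nonneg_left ?_ har.le
        exact_mod_cast h.le
      have h5 : 0 ≤ ar * X := by positivity
      have h6 : (0 : ℝ) ≤ (Bx X).card := Nat.cast_nonneg _
      have h7 : |((Bx X).card : ℝ) - ar * X| ≤ (Bx X₀).card + ar * X₀ := by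
        rw [abs_le]
        constructor <;> linarith [(Nat.cast_nonneg (Bx X₀).card : (0 : ℝ) ≤ _)]
      have h8 : 0 ≤ ε / 4 * X := by positivity
      linarith
    · have h3 := hX₀ X h
      rcases Nat.eq_zero_or_pos X with h0 | h0
      · subst h0
        have : X₀ = 0 := by omega
        subst this
        have h4 : (0 : ℝ) ≤ ((Bx 0).card : ℝ) := Nat.cast_nonneg _
        simp only [Nat.cast_zero, mul_zero, sub_zero, add_zero, zero_add] at hK ⊢
        rw [abs_of_nonneg h4, hK]
      · have hX : (0 : ℝ) < X := by exact_mod_cast h0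
        rw [Real.dist_eq] at h3
        have e : ((Bx X).card : ℝ) - ar * X = (((Bx X).card : ℝ) / X - ar) * X := by
          field_simp
        rw [e, abs_mul, abs_of_pos hX]
        have h4 : |((Bx X).card : ℝ) / X - ar| * X ≤ ε / 4 * X :=
          mul_le_mul_of_nonneg_right h3.le hX.le
        have h5 : 1 + ar ≤ K := by
          rw [hK]
          have : 0 ≤ ((Bx X₀).card : ℝ) + ar * X₀ := by positivity
          linarith
        linarith
  have h3 := de_le (by positivity) hK0 h2
  have h4 : Tendsto (fun X : ℕ => Real.sqrt X) atTop atTop :=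
    Real.tendsto_sqrt_atTop.comp tendsto_natCast_atTop_atTop
  filter_upwards [h4.eventually (eventually_gt_atTop (8 * K / ε)), eventually_ge_atTop 1] with X h5 h6
  have hX : (0 : ℝ) < X := by exact_mod_cast h6
  have hs : 0 < Real.sqrt X := Real.sqrt_pos.2 hX
  have e : ((CX X).card : ℝ) / X - 2 / 3 * ar = de X / X := by
    unfold de
    field_simp
  rw [Real.dist_eq, e, abs_div, abs_of_pos hX, div_lt_iff₀ hX]
  refine lt_of_le_of_lt (h3 X) ?_
  rw [div_lt_iff₀ hε] at h5
  have h7 : Real.sqrt X * Real.sqrt X = X := Real.mul_self_sqrt hX.le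
  have h8 : 8 * K * Real.sqrt X < ε * X := by
    calc 8 * K * Real.sqrt X < Real.sqrt X * ε * Real.sqrt X :=
          mul_lt_mul_of_pos_right h5 hs
      _ = ε * (Real.sqrt X * Real.sqrt X) := by ring
      _ = ε * X := by rw [h7]
  linarith

end Run7.h238.Half
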